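import Pool.Agent.Mg.Fc4ca5b.G3530f0

/-! The hierarchy of labelled cells with digits in an arbitrary base. -/

set_option linter.unusedSectionVars false

namespace Pool.Agent.MP_c4ca5b_lc.B

open Finset

/-- The base of the digits. -/
class Bs : Type where
  b : ℕ
  hb : 3 ≤ b

def bN [B : Bs] : ℕ := B.b

def bZ [Bs] : ℤ := bN

variable [Bs] {n : ℕ}

lemma bN_ge : 3 ≤ bN := Bs.hb

lemma bZ_eq : bZ = (bN : ℤ) := rfl

lemma bZ_ge : 3 ≤ bZ := by have := bN_ge; rw [bZ_eq]; omega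

lemma bN_pos : 0 < bN := by have := bN_ge; omega

lemma bZ_pos : 0 < bZ := by have := bZ_ge; omega

section

def Bd (n : ℕ) : ℤ := 3 * Mc n + C1 n + bZ + 1

lemma Bd_ge (n : ℕ) : Rw n ≤ Bd n := by
  unfold Rw Bd; have := Mc_pos n; have := bZ_pos; omega

lemma Bd_pos (n : ℕ) : 0 ≤ Bd n := le_trans (by have := Rw_pos n; omega) (Bd_ge n)

abbrev Bx (n : ℕ) := {v : Z n // nb v (Bd n)}

instance : Finite (Bx n) := (finite_nb (Bd n)).to_subtype

instance : Inhabited (Bx n) := ⟨⟨0, nb_zero (Bd_pos n)⟩⟩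

open Classical in
noncomputable def clamp (v : Z n) : Bx n := if h : nb v (Bd n) then ⟨v, h⟩ else default

lemma clamp_val {v : Z n} (h : nb v (Bd n)) : (clamp v).1 = v := by
  unfold clamp; rw [dif_pos h]

structure Lam (n : ℕ) : Type where
  sp : Prop
  hi : Prop
  top : Prop
  G : Prop
  W : Prop
  cin : Prop
  done : Prop
  g : Prop
  st : Prop
  Fm : Fin n → Prop
  Fp : Fin n → Prop
  d : Bx n
  inc : Fin n → Bx n
  s : Fin (bN ^ n)
  ptr : Option (Fin n)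
  ch : Pos n

instance : Finite (Lam n) :=
  Finite.of_injective (fun m : Lam n => (m.sp, m.hi, m.top, m.G, m.W, m.cin, m.done, m.g, m.st,
    m.Fm, m.Fp, m.d, m.inc, m.s, m.ptr, m.ch)) (by
    rintro ⟨⟩ ⟨⟩ h; simp only [Prod.mk.injEq] at h; simp only [Lam.mk.injEq]; exact h)

instance : Inhabited (Lam n) :=
  ⟨⟨True, True, True, True, True, True, True, True, True, fun _ => True, fun _ => True,
    default, fun _ => default, ⟨0, pow_pos bN_pos _⟩, none, 0⟩⟩

def emb (s : Fin (bN ^ n)) : Z n := fun k => ((finFunctionFinEquiv.symm s k : Fin bN) : ℕ)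

open Classical in
def sys (k0 : Fin n) : Sys n (Lam n) where
  sp l := l.sp
  SR l := (l.sp → l.hi ∧ ∀ k, l.Fm k ∧ l.Fp k) ∧ (l.top → l.G) ∧ (¬ l.hi → l.Fm k0 → l.s.val = 0) ∧
    (l.top → l.Fm k0 → ¬ l.done) ∧ (l.top → l.Fp k0 → l.done ∨ l.cin) ∧
    (l.top → l.W → (∀ k, k ≠ k0 → l.Fm k) → l.g) ∧
    (l.g → (l.ptr = none ∧ l.st) ∨ ∃ k, k ≠ k0 ∧ l.ptr = some k ∧ ¬ l.Fp k)
  VR π l m := (∀ k, (l.Fm k ↔ m.Fm k ∧ π k = 0) ∧ (l.Fp k ↔ m.Fp k ∧ π k = 2)) ∧
    (l.hi → m.hi) ∧ (m.hi → ¬ l.hi → m.top) ∧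
    (¬ l.hi → (l.G ↔ m.G ∧ π k0 = 2) ∧ (l.W ↔ m.W) ∧ (m.cin ↔ l.cin ∧ l.s.val + 1 = bN ^ n) ∧
      (l.st ↔ m.st ∧ m.ch = π) ∧ (l.st → l.d.1 = emb l.s))
  PS m := ¬ m.hi ∧ ¬ (m.st ∧ m.ch = ctr)
  HR k π l l' m := ¬ l.Fp k → ¬ l'.Fm k → (l.hi ↔ l'.hi) ∧
    ((l.inc k).1 = l'.d.1 - l.d.1 + (if π k = 2 then bZ • (m.inc k).1 else 0)) ∧
    (¬ l.hi → l'.s.val = if k = k0 ∧ l.G ∧ l.cin then (l.s.val + 1) % bN ^ n else l.s.val) ∧
    (l.top → k = k0 → (l'.done ↔ l.done ∨ l.cin)) ∧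
    (l.g → l.ptr = some k → l'.g)

structure Base (K : ℕ) (lam : ℕ → Z n → Lam n) (x : Z n → Z n) : Prop where
  low : ∀ c, Sub K 0 c → ¬ (lam 0 c).hi ∧ ((lam 0 c).cin ↔ (lam 0 c).W)
  inc : ∀ c k, Sub K 0 c → Sub K 0 (c + e k) → ¬ (lam 0 c).Fp k → ¬ (lam 0 (c + e k)).Fm k →
    ((lam 0 c).inc k).1 = x (c + e k) - x c

lemma six_expand (r : ℤ) (a : ℕ) :
    ∑ j ∈ range a, bZ ^ j * (r / bZ ^ j % bZ) = r - bZ ^ a * (r / bZ ^ a) := by
  induction a with
  | zero => simp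
  | succ a ih =>
    rw [sum_range_succ, ih, pow_succ, ← Int.ediv_ediv_of_nonneg (pow_pos bZ_pos _).le]
    have := Int.mul_ediv_add_emod (r / bZ ^ a) bZ
    have h2 : r / bZ ^ a % bZ = r / bZ ^ a - bZ * (r / bZ ^ a / bZ) := by linarith
    rw [h2]; ring

/-- the digit vector of `r` at level `j` -/
def dig (r : Z n) (j : ℕ) : Fin (bN ^ n) :=
  finFunctionFinEquiv fun k => ⟨(r k / bZ ^ j % bZ).toNat, by
    have := Int.emod_lt_of_pos (r k / bZ ^ j) bZ_pos
    have := bZ_eq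
    have := bN_pos
    omega⟩

lemma emb_dig (r : Z n) (j : ℕ) (k : Fin n) : emb (dig r j) k = r k / bZ ^ j % bZ := by
  simp only [emb, dig, Equiv.symm_apply_apply]
  exact Int.toNat_of_nonneg (Int.emod_nonneg _ bZ_pos.ne')

lemma emb_bound (s : Fin (bN ^ n)) (k : Fin n) : 0 ≤ emb s k ∧ emb s k < bZ := by
  have := (finFunctionFinEquiv.symm s k).2
  have := bZ_eq
  simp only [emb]; omega

def Tj (lam : ℕ → Z n → Lam n) (j : ℕ) : ℕ → Z n → Prop :=
  fun i D => (lam (j + i) D).sp ∧ pos D = ctr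

def Free (K : ℕ) (lam : ℕ → Z n → Lam n) (j : ℕ) (C : Z n) : Prop := Fr (Tj lam j) (K - j) C

lemma Tj_ctr (lam : ℕ → Z n → Lam n) (j : ℕ) : ∀ i D, Tj lam j i D → pos D = ctr :=
  fun _ _ h => h.2

variable {K : ℕ} {lam : ℕ → Z n → Lam n} {x : Z n → Z n} {k0 : Fin n}

lemma Free.par {j : ℕ} {C : Z n} (h : Free K lam j C) : Free K lam (j + 1) (par C) := by
  intro i hi hT
  refine h (i + 1) (by omega) ?_
  rw [anc_succ']
  unfold Tj at hT ⊢
  rwa [show j + (i + 1) = j + 1 + i by omega]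

lemma Free.anc {j : ℕ} {C : Z n} (h : Free K lam j C) (i : ℕ) : Free K lam (j + i) (anc i C) := by
  induction i with
  | zero => simpa using h
  | succ i ih => rw [anc_succ]; exact ih.par

lemma free_split {j h : ℕ} {C : Z n} (h1 : Fr (Tj lam j) h C)
    (h2 : Free K lam (j + h) (anc h C)) : Free K lam j C := by
  intro i hi hT
  rcases lt_or_ge i h with h3 | h3
  · exact h1 i h3 hT
  · obtain ⟨i', rfl⟩ := Nat.exists_eq_add_of_le h3
    refine h2 i' (by omega) ?_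
    rw [← anc_add]
    unfold Tj at hT ⊢
    rwa [add_assoc]

lemma free_of {j : ℕ} {C : Z n} (h1 : ¬ (lam j C).sp) (h2 : Free K lam (j + 1) (par C)) :
    Free K lam j C := by
  refine free_split (h := 1) ?_ (by rw [anc_succ, anc_zero]; exact h2)
  intro i hi hT
  obtain rfl : i = 0 := by omega
  exact h1 (by simpa using hT.1)

lemma Free.fr {j h : ℕ} {C : Z n} (h1 : Free K lam j C) (hh : j + h ≤ K) : Fr (Tj lam j) h C :=
  fun i hi => h1 i (by omega)

lemma free_root (C : Z n) : Free K lam K C := fun i hi => by omega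

lemma Free.not_sp (hP : (sys k0).Pyr K lam) {j : ℕ} {C : Z n} (h : Free K lam j C) (hj : j < K)
    (hC : Sub K j C) : ¬ (lam j C).sp := by
  intro hs
  refine h 0 (by omega) ⟨by simpa using hs, ?_⟩
  rw [anc_zero]; exact (hP.spc j C hj hC hs).1

lemma down_ind {Q : ℕ → Z n → Prop} {a : ℕ} (ha : a ≤ K)
    (h0 : ∀ A, Sub K a A → Free K lam a A → Q a A)
    (hs : ∀ j C, j < a → Sub K j C → Free K lam j C → Q (j + 1) (par C) → Q j C) :
    ∀ j C, j ≤ a → Sub K j C → Free K lam j C → Q j C := by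
  have : ∀ d j C, j + d = a → Sub K j C → Free K lam j C → Q j C := by
    intro d
    induction d with
    | zero => intro j C hj; obtain rfl : j = a := hj; exact h0 C
    | succ d ih =>
      intro j C hj h1 h2
      exact hs j C (by omega) h1 h2 (ih (j + 1) _ (by omega) (h1.par (by omega)) h2.par)
  intro j C hj
  exact this (a - j) j C (by omega)

lemma flag_m (hP : (sys k0).Pyr K lam) (k : Fin n) :
    ∀ j C, j ≤ K → Sub K j C → Free K lam j C →
      ((lam j C).Fm k ↔ (lam K 0).Fm k ∧ C k = 0) := by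
  refine down_ind le_rfl (fun A hA _ => by rw [hA.root]; simp) ?_
  intro j C hj hC hF ih
  rw [((hP.vr j C hj hC (hF.not_sp hP hj hC)).1 k).1, ih, pos_zero_iff]
  simp only [par]
  constructor
  · rintro ⟨⟨h1, h2⟩, h3⟩; exact ⟨h1, by omega⟩
  · rintro ⟨h1, h2⟩; exact ⟨⟨h1, by omega⟩, by omega⟩

lemma flag_p (hP : (sys k0).Pyr K lam) (k : Fin n) :
    ∀ j C, j ≤ K → Sub K j C → Free K lam j C →
      ((lam j C).Fp k ↔ (lam K 0).Fp k ∧ C k + 1 = 3 ^ (K - j)) := by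
  refine down_ind le_rfl (fun A hA _ => by rw [hA.root]; simp) ?_
  intro j C hj hC hF ih
  rw [((hP.vr j C hj hC (hF.not_sp hP hj hC)).1 k).2, ih, pos_two_iff, pow_sub_succ hj]
  simp only [par]
  constructor
  · rintro ⟨⟨h1, h2⟩, h3⟩; exact ⟨h1, by omega⟩
  · rintro ⟨h1, h2⟩; exact ⟨⟨h1, by omega⟩, by omega⟩

lemma active (hP : (sys k0).Pyr K lam) {j : ℕ} {C : Z n} {k : Fin n} (hC : Sub K j C)
    (hC' : Sub K j (C + e k)) (hF : Free K lam j C) (hF' : Free K lam j (C + e k)) :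
    ¬ (lam j C).Fp k ∧ ¬ (lam j (C + e k)).Fm k := by
  rw [flag_p hP k j C hC.1 hC hF, flag_m hP k j _ hC.1 hC' hF']
  have h1 := (sub_iff.1 hC).2 k
  have h2 := (sub_iff.1 hC').2 k
  simp only [Pi.add_apply, e_same] at h2 ⊢
  constructor <;> rintro ⟨-, h⟩ <;> omega

open Classical in
lemma hrel (hP : (sys k0).Pyr K lam) {j : ℕ} {C : Z n} {k : Fin n} (hC : Sub K j C)
    (hC' : Sub K j (C + e k)) (hF : Free K lam j C) (hF' : Free K lam j (C + e k)) :
    ((lam j C).hi ↔ (lam j (C + e k)).hi) ∧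
    (((lam j C).inc k).1 = (lam j (C + e k)).d.1 - (lam j C).d.1 +
      (if pos C k = 2 then bZ • ((lam (j + 1) (par C)).inc k).1 else 0)) ∧
    (¬ (lam j C).hi → (lam j (C + e k)).s.val = if k = k0 ∧ (lam j C).G ∧ (lam j C).cin then
      ((lam j C).s.val + 1) % bN ^ n else (lam j C).s.val) ∧
    ((lam j C).top → k = k0 → ((lam j (C + e k)).done ↔ (lam j C).done ∨ (lam j C).cin)) ∧
    ((lam j C).g → (lam j C).ptr = some k → (lam j (C + e k)).g) := by
  have hj := lt_of_pair hC hC'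
  have ha := active hP hC hC' hF hF'
  exact hP.hr j C k hj hC hC' (hF.not_sp hP hj hC) ha.1 ha.2

def Hs (lam : ℕ → Z n → Lam n) (a : ℕ) (c : Z n) : Z n :=
  ∑ j ∈ range a, (bZ ^ j) • (lam j (anc j c)).d.1

lemma tele (hP : (sys k0).Pyr K lam) (hB : Base K lam x) {c : Z n} {k : Fin n} (hC : Sub K 0 c)
    (hC' : Sub K 0 (c + e k)) (hF : Free K lam 0 c) (hF' : Free K lam 0 (c + e k)) :
    ∀ a, a ≤ K → (anc a (c + e k) = anc a c ∧
        x (c + e k) - x c = Hs lam a (c + e k) - Hs lam a c) ∨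
      (anc a (c + e k) = anc a c + e k ∧ x (c + e k) - x c = Hs lam a (c + e k) - Hs lam a c +
        (bZ ^ a) • ((lam a (anc a c)).inc k).1) := by
  intro a
  induction a with
  | zero =>
    intro _
    right
    have ha := active hP hC hC' hF hF'
    simp [Hs, hB.inc c k hC hC' ha.1 ha.2]
  | succ a ih =>
    intro ha
    rcases ih (by omega) with ⟨h1, h2⟩ | ⟨h1, h2⟩
    · left
      refine ⟨by rw [anc_succ, anc_succ, h1], ?_⟩
      simp only [Hs, sum_range_succ] at h2 ⊢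
      rw [h2, h1]; abel
    · have s1 := hC.anc a (by omega)
      have s2 := hC'.anc a (by omega)
      have f1 := hF.anc a
      have f2 := hF'.anc a
      rw [zero_add] at s1 s2 f1 f2
      rw [h1] at s2 f2
      have hr := (hrel hP s1 s2 f1 f2).2.1
      by_cases h3 : pos (anc a c) k = 2
      · right
        rw [if_pos h3] at hr
        refine ⟨by rw [anc_succ, anc_succ, h1, par_add_e_of_eq h3], ?_⟩
        simp only [Hs, sum_range_succ] at h2 ⊢
        rw [h2, h1, hr, anc_succ, pow_succ, mul_smul, smul_add, smul_sub]; abel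
      · left
        rw [if_neg h3] at hr
        refine ⟨by rw [anc_succ, anc_succ, h1, par_add_e_of_ne h3], ?_⟩
        simp only [Hs, sum_range_succ] at h2 ⊢
        rw [h2, h1, hr, add_zero, smul_sub]; abel

lemma rigid [Nontrivial (Fin n)] (hP : (sys k0).Pyr K lam) (hB : Base K lam x) {a : ℕ}
    (ha : a ≤ K) {c : Z n} (hC : Sub K 0 c) (hF : Free K lam 0 c) (k : Fin n) :
    bZ ^ a ∣ (x c - Hs lam a c) k - (x 0 - Hs lam a 0) k := by
  have := carpet (Tj_ctr lam 0) (fun c => fun k => (x c - Hs lam a c) k % bZ ^ a) K 0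
    (fun C l h1 h2 h3 h4 => ?_) c (by simpa using hC.2) (by simpa [Free] using hF)
  · have h1 := congrFun this k
    rw [smul_zero] at h1
    exact Int.ModEq.dvd h1.symm
  · have s1 : Sub K 0 C := ⟨by omega, by simpa using h1⟩
    have s2 : Sub K 0 (C + e l) := ⟨by omega, by simpa using h2⟩
    funext k
    rcases tele hP hB s1 s2 (by simpa [Free] using h3) (by simpa [Free] using h4) a ha with
      ⟨-, h5⟩ | ⟨-, h5⟩
    · have := congrFun h5 k
      simp only [Pi.sub_apply] at this ⊢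
      congr 1; linarith
    · have := congrFun h5 k
      simp only [Pi.sub_apply, Pi.add_apply, Pi.smul_apply, smul_eq_mul] at this ⊢
      rw [show x (C + e l) k - Hs lam a (C + e l) k = x C k - Hs lam a C k +
        bZ ^ a * ((lam a (anc a C)).inc l).1 k by linarith, Int.add_mul_emod_self_left]

lemma free_zero (k0 : Fin n) (j : ℕ) : Free K lam j (0 : Z n) :=
  fr_of_dvd (Tj_ctr lam j) (l := k0) 0 (by simp)

lemma exists_level [Nontrivial (Fin n)] (hP : (sys k0).Pyr K lam) (hB : Base K lam x)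
    (hs : (lam K 0).sp) : ∃ a, 1 ≤ a ∧ a ≤ K ∧
      ∀ j C, Sub K j C → Free K lam j C → ((lam j C).hi ↔ a ≤ j) := by
  classical
  have hc : ∀ j C, Sub K j C → Free K lam j C → ((lam j C).hi ↔ (lam j 0).hi) := by
    intro j C hC hF
    have := carpet (Tj_ctr lam j) (fun C => (lam j C).hi) (K - j) 0 (fun C l h1 h2 h3 h4 =>
      propext (hrel hP ⟨hC.1, h1⟩ ⟨hC.1, h2⟩ h3 h4).1) C hC.2 hF
    rw [smul_zero] at this
    exact iff_of_eq this
  have hK : (lam K 0).hi := ((hP.sr K 0 (sub_root K)).1 hs).1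
  have hex : ∃ j, j ≤ K ∧ (lam j 0).hi := ⟨K, le_rfl, hK⟩
  have hmono : ∀ j, j < K → (lam j 0).hi → (lam (j + 1) 0).hi := by
    intro j hj h
    have := (hP.vr j 0 hj (sub_zero' hj.le) ((free_zero k0 j).not_sp hP hj (sub_zero' hj.le))).2.1 h
    rwa [par_zero] at this
  refine ⟨Nat.find hex, ?_, (Nat.find_spec hex).1, fun j C hC hF => ?_⟩
  · rw [Nat.one_le_iff_ne_zero]
    intro h0
    have := (Nat.find_spec hex).2
    rw [h0] at this
    exact (hB.low 0 (sub_zero' (by omega))).1 this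
  · rw [hc j C hC hF]
    refine ⟨fun h => Nat.find_min' hex ⟨hC.1, h⟩, fun h => ?_⟩
    have h1 := hC.1
    clear hC hF
    induction j, h using Nat.le_induction with
    | base => exact (Nat.find_spec hex).2
    | succ j _ ih => exact hmono j (by omega) (ih (by omega))

section Cover

variable [Nontrivial (Fin n)] (hP : (sys k0).Pyr K lam) (hB : Base K lam x) {a : ℕ} (ha1 : 1 ≤ a)
  (haK : a ≤ K) (hhi : ∀ j C, Sub K j C → Free K lam j C → ((lam j C).hi ↔ a ≤ j))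
include hP hB ha1 haK hhi

lemma free_high : ∀ j C, a ≤ j + 1 → Sub K j C → Free K lam j C := by
  have : ∀ d j C, j + d = K → a ≤ j + 1 → Sub K j C → Free K lam j C := by
    intro d
    induction d with
    | zero => intro j C hj _ _; obtain rfl : j = K := hj; exact free_root C
    | succ d ih =>
      intro j C hj h1 h2
      have hs := h2.par (by omega)
      have hf := ih (j + 1) _ (by omega) (by omega) hs
      refine free_of (fun hsp => ?_) hf
      exact (hP.spc j C (by omega) h2 hsp).2.1 ((hhi _ _ hs hf).2 h1)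
  intro j C h1 h2
  exact this (K - j) j C (by have := h2.1; omega) h1 h2

lemma corner_sub {j : ℕ} (hj : j ≤ a) {A : Z n} (hA : Sub K a A) :
    Sub K j (((3:ℤ) ^ (a - j)) • A) := by
  refine sub_of_anc (i := a - j) ?_
  rw [anc_smul, show j + (a - j) = a by omega]; exact hA

lemma free_of_fr {j : ℕ} (hj : j ≤ a) {C : Z n} (hC : Sub K j C) (hF : Fr (Tj lam j) (a - j) C) :
    Free K lam j C :=
  free_split hF (free_high hP hB ha1 haK hhi _ _ (by omega) (hC.anc _ (by omega)))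

lemma corner_free {j : ℕ} (hj : j ≤ a) {A : Z n} (hA : Sub K a A) :
    Free K lam j (((3:ℤ) ^ (a - j)) • A) :=
  free_of_fr hP hB ha1 haK hhi hj (corner_sub hP hB ha1 haK hhi hj hA)
    (fr_of_dvd (Tj_ctr lam j) (l := k0) (A k0) (by simp))

lemma par_corner {j : ℕ} (hj : j < a) (A : Z n) :
    par (((3:ℤ) ^ (a - j)) • A) = ((3:ℤ) ^ (a - (j + 1))) • A := by
  have := par_add_smul 0 (((3:ℤ) ^ (a - (j + 1))) • A)
  rw [zero_add, par_zero, zero_add] at this
  rw [pow_smul_succ hj, this]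

lemma vrel {j : ℕ} (hj : j < a) {C : Z n} (hC : Sub K j C) (hF : Free K lam j C) :
    ((lam j C).G ↔ (lam (j + 1) (par C)).G ∧ pos C k0 = 2) ∧
    ((lam j C).W ↔ (lam (j + 1) (par C)).W) ∧
    ((lam (j + 1) (par C)).cin ↔ (lam j C).cin ∧ (lam j C).s.val + 1 = bN ^ n) ∧
    ((lam j C).st ↔ (lam (j + 1) (par C)).st ∧ (lam (j + 1) (par C)).ch = pos C) ∧
    ((lam j C).st → (lam j C).d.1 = emb (lam j C).s) :=
  (hP.vr j C (by omega) hC (hF.not_sp hP (by omega) hC)).2.2.2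
    (by rw [hhi j C hC hF]; omega)

lemma top_of {A : Z n} (hA : Sub K a A) : (lam a A).top := by
  have h1 := corner_sub hP hB ha1 haK hhi (j := a - 1) (by omega) hA
  have h2 := corner_free hP hB ha1 haK hhi (j := a - 1) (by omega) hA
  have h3 := (hP.vr (a - 1) _ (by omega) h1 (h2.not_sp hP (by omega) h1)).2.2.1
  rw [par_corner hP hB ha1 haK hhi (by omega), show a - 1 + 1 = a by omega, Nat.sub_self,
    pow_zero, one_smul] at h3
  refine h3 ((hhi _ _ hA (free_high hP hB ha1 haK hhi _ _ (by omega) hA)).2 le_rfl) ?_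
  rw [hhi _ _ h1 h2]; omega

lemma G_iff : ∀ j C, j ≤ a → Sub K j C → Free K lam j C →
    ((lam j C).G ↔ (3:ℤ) ^ (a - j) ∣ C k0 + 1) := by
  refine down_ind haK (fun A hA _ => ?_) ?_
  · simpa using (hP.sr a A hA).2.1 (top_of hP hB ha1 haK hhi hA)
  · intro j C hj hC hF ih
    rw [(vrel hP hB ha1 haK hhi hj hC hF).1, ih, pos_two_iff, pow_sub_succ hj]
    simp only [par]
    constructor
    · rintro ⟨⟨m, h1⟩, h2⟩
      exact ⟨m, by rw [mul_assoc]; omega⟩
    · rintro ⟨m, h1⟩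
      rw [mul_assoc] at h1
      exact ⟨⟨m, by omega⟩, by omega⟩

lemma W_iff : ∀ j C, j ≤ a → Sub K j C → Free K lam j C →
    ((lam j C).W ↔ (lam a (anc (a - j) C)).W) := by
  refine down_ind haK (fun A _ _ => by simp) ?_
  intro j C hj hC hF ih
  rw [(vrel hP hB ha1 haK hhi hj hC hF).2.1, ih, ← anc_succ',
    show a - (j + 1) + 1 = a - j by omega]

open Classical in
lemma s_const {j : ℕ} (hj : j < a) {C : Z n} (hC : Sub K j C) (hF : Free K lam j C) :
    (lam j C).s = (lam j (((3:ℤ) ^ (a - j)) • anc (a - j) C)).s := by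
  have hA : Sub K a (anc (a - j) C) := by
    have := hC.anc (a - j) (by omega)
    rwa [show j + (a - j) = a by omega] at this
  refine carpet (Tj_ctr lam j) (fun C => (lam j C).s) (a - j) _ (fun D k h1 h2 h3 h4 => ?_) C rfl
    (hF.fr (by omega))
  have s1 : Sub K j D := sub_of_anc (i := a - j) (by
    rw [h1, show j + (a - j) = a by omega]; exact hA)
  have s2 : Sub K j (D + e k) := sub_of_anc (i := a - j) (by
    rw [h2, show j + (a - j) = a by omega]; exact hA)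
  have f1 := free_of_fr hP hB ha1 haK hhi hj.le s1 h3
  have f2 := free_of_fr hP hB ha1 haK hhi hj.le s2 h4
  have h5 := (hrel hP s1 s2 f1 f2).2.2.1 (by rw [hhi _ _ s1 f1]; omega)
  rw [if_neg] at h5
  · exact (Fin.ext h5).symm
  · rintro ⟨rfl, h6, -⟩
    rw [G_iff hP hB ha1 haK hhi j D hj.le s1 f1] at h6
    obtain ⟨m, hm⟩ := h6
    have b1 := ((anc_eq_iff _ _ _).1 h1) k
    have b2 := ((anc_eq_iff _ _ _).1 h2) k
    simp only [Pi.add_apply, e_same] at b2
    rw [hm] at b2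
    have hp : (0:ℤ) < 3 ^ (a - j) := by positivity
    have c1 : m < anc (a - j) C k + 1 := by
      by_contra hh; push Not at hh; nlinarith [b2.2]
    have c2 : anc (a - j) C k < m := by
      by_contra hh; push Not at hh; nlinarith [b1.1]
    omega

lemma cin_iff : ∀ j, j ≤ a → ∀ C, Sub K j C → Free K lam j C →
    ((lam j C).cin ↔ (lam a (anc (a - j) C)).W ∧
      ∀ i, i < j → (lam i (((3:ℤ) ^ (a - i)) • anc (a - j) C)).s.val + 1 = bN ^ n) := by
  intro j
  induction j with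
  | zero =>
    intro _ C hC hF
    rw [(hB.low C hC).2, W_iff hP hB ha1 haK hhi 0 C (by omega) hC hF]; simp
  | succ j ih =>
    intro hj C hC hF
    have hpar : par ((3:ℤ) • C) = C := by
      have := par_add_smul 0 C
      rwa [zero_add, par_zero, zero_add] at this
    have s1 : Sub K j ((3:ℤ) • C) := sub_of_anc (i := 1) (by
      rw [anc_succ, anc_zero, hpar]; exact hC)
    have f1 : Free K lam j ((3:ℤ) • C) := free_split (h := 1)
      (fr_of_dvd (Tj_ctr lam j) (l := k0) (C k0) (by simp))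
      (by rw [anc_succ, anc_zero, hpar]; exact hF)
    have h1 := (vrel hP hB ha1 haK hhi (by omega) s1 f1).2.2.1
    have h2 : anc (a - j) ((3:ℤ) • C) = anc (a - (j + 1)) C := by
      rw [show a - j = a - (j + 1) + 1 by omega, anc_succ', hpar]
    rw [hpar] at h1
    rw [h1, ih (by omega) _ s1 f1, s_const hP hB ha1 haK hhi (by omega) s1 f1, h2]
    constructor
    · rintro ⟨⟨h3, h4⟩, h5⟩
      refine ⟨h3, fun i hi => ?_⟩
      rcases Nat.lt_succ_iff_lt_or_eq.1 hi with hi | rfl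
      · exact h4 i hi
      · exact h5
    · rintro ⟨h3, h4⟩
      exact ⟨⟨h3, fun i hi => h4 i (by omega)⟩, h4 j (by omega)⟩

open Classical in
lemma cross {j : ℕ} (hj : j < a) {A : Z n} {k : Fin n} (hA : Sub K a A) (hA' : Sub K a (A + e k)) :
    (lam j (((3:ℤ) ^ (a - j)) • (A + e k))).s.val =
      if k = k0 ∧ (lam a A).W ∧ ∀ i, i < j → (lam i (((3:ℤ) ^ (a - i)) • A)).s.val + 1 = bN ^ n
      then ((lam j (((3:ℤ) ^ (a - j)) • A)).s.val + 1) % bN ^ n
      else (lam j (((3:ℤ) ^ (a - j)) • A)).s.val := by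
  obtain ⟨l, hl⟩ := exists_ne k
  set C := ((3:ℤ) ^ (a - j)) • (A + e k) - e k with hCdef
  have h1 : anc (a - j) C = A := anc_smul_sub _ _ _
  have s1 : Sub K j C := sub_of_anc (i := a - j) (by
    rw [h1, show j + (a - j) = a by omega]; exact hA)
  have f1 : Free K lam j C := free_of_fr hP hB ha1 haK hhi hj.le s1
    (fr_of_dvd (Tj_ctr lam j) (l := l) (A l) (by simp [hCdef, e_ne hl]))
  have e1 : C + e k = ((3:ℤ) ^ (a - j)) • (A + e k) := by simp [hCdef]
  have s2 := corner_sub hP hB ha1 haK hhi hj.le hA'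
  have f2 := corner_free hP hB ha1 haK hhi hj.le hA'
  rw [← e1] at s2 f2
  have h5 := (hrel hP s1 s2 f1 f2).2.2.1 (by rw [hhi _ _ s1 f1]; omega)
  rw [e1, s_const hP hB ha1 haK hhi hj s1 f1, cin_iff hP hB ha1 haK hhi j hj.le C s1 f1,
    G_iff hP hB ha1 haK hhi j C hj.le s1 f1, h1] at h5
  rw [h5]
  congr 1
  apply propext
  refine and_congr_right fun hk => and_iff_right ?_
  subst hk
  exact ⟨A k + 1, by simp [hCdef]; ring⟩

lemma g_chain (hs : (lam K 0).sp) : ∀ (N : ℕ) (A : Z n), Sub K a A →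
    l1 (((3:ℤ) ^ (K - a)) • one - A) = N → (lam a A).g →
    ∃ A', Sub K a A' ∧ (lam a A').st ∧ ∀ j, j < a →
      (lam j (((3:ℤ) ^ (a - j)) • A')).s = (lam j (((3:ℤ) ^ (a - j)) • A)).s := by
  intro N
  induction N using Nat.strong_induction_on with
  | _ N ih =>
    intro A hA hN hg
    rcases (hP.sr a A hA).2.2.2.2.2.2 hg with ⟨-, h1⟩ | ⟨k, hk, h1, h2⟩
    · exact ⟨A, hA, h1, fun _ _ => rfl⟩
    · have fA := free_high hP hB ha1 haK hhi _ _ (by omega) hA
      rw [flag_p hP k a A haK hA fA] at h2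
      have hb := (sub_iff.1 hA).2
      have h3 : A k + 1 < 3 ^ (K - a) := by
        have := hb k
        have h4 : A k + 1 ≠ 3 ^ (K - a) := fun h =>
          h2 ⟨(((hP.sr K 0 (sub_root K)).1 hs).2 k).2, h⟩
        omega
      have hA' : Sub K a (A + e k) := by
        rw [sub_iff]
        refine ⟨haK, fun l => ?_⟩
        have := hb l
        rw [Pi.add_apply, e_apply]; split_ifs with h
        · subst h; omega
        · omega
      have hg' := (hrel hP hA hA' fA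
        (free_high hP hB ha1 haK hhi _ _ (by omega) hA')).2.2.2.2 hg h1
      obtain ⟨A', h5, h6, h7⟩ := ih (l1 (((3:ℤ) ^ (K - a)) • one - (A + e k))) (by
        rw [← hN]
        unfold l1
        refine Finset.sum_lt_sum (fun l _ => ?_) ⟨k, mem_univ _, ?_⟩
        · have := hb l
          simp only [Pi.sub_apply, Pi.add_apply, Pi.smul_apply, one, smul_eq_mul, mul_one, e_apply]
          split_ifs with h
          · subst h; omega
          · omega
        · simp only [Pi.sub_apply, Pi.add_apply, Pi.smul_apply, one, smul_eq_mul, mul_one, e_same]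
          omega) _ hA' rfl hg'
      refine ⟨A', h5, h6, fun j hj => ?_⟩
      rw [h7 j hj]
      apply Fin.ext
      rw [cross hP hB ha1 haK hhi hj hA hA', if_neg (fun h => hk h.1)]

lemma st_chain : ∀ j, j ≤ a → ∀ C, Sub K j C → Free K lam j C → (lam j C).st →
    ∃ c, Sub K 0 c ∧ Free K lam 0 c ∧ anc j c = C ∧ (lam 0 c).st ∧
      ∀ i, i < j → (lam i (anc i c)).d.1 = emb (lam i (anc i c)).s := by
  intro j
  induction j with
  | zero => intro _ C hC hF hst; exact ⟨C, hC, hF, by simp, hst, by simp⟩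
  | succ j ih =>
    intro hj C hC hF hst
    let D : Z n := fun k => 3 * C k + ((lam (j + 1) C).ch k).val
    have hv : ∀ k, (((lam (j + 1) C).ch k).val : ℤ) < 3 := fun k => by
      have := ZMod.val_lt ((lam (j + 1) C).ch k); omega
    have hpar : par D = C := by
      funext k; have := hv k; simp only [par, D]; omega
    have hpos : pos D = (lam (j + 1) C).ch := by
      funext k; simp only [pos, D]; push_cast
      have : (3 : ZMod 3) = 0 := rfl
      rw [this]; simp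
    have s1 : Sub K j D := sub_of_anc (i := 1) (by rw [anc_succ, anc_zero, hpar]; exact hC)
    have hns : ¬ (lam j D).sp := by
      intro h
      have := hP.spc j D (by omega) s1 h
      rw [hpar] at this
      exact this.2.2 ⟨hst, by rw [← hpos]; exact this.1⟩
    have f1 : Free K lam j D := free_of hns (by rw [hpar]; exact hF)
    have hv := vrel hP hB ha1 haK hhi (by omega) s1 f1
    have hst' : (lam j D).st := hv.2.2.2.1.2 (by rw [hpar]; exact ⟨hst, hpos.symm⟩)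
    obtain ⟨c, h1, h2, h3, h4, h5⟩ := ih (by omega) D s1 f1 hst'
    refine ⟨c, h1, h2, by rw [anc_succ, h3, hpar], h4, fun i hi => ?_⟩
    rcases Nat.lt_succ_iff_lt_or_eq.1 hi with hi | rfl
    · exact h5 i hi
    · rw [h3]; exact hv.2.2.2.2 hst'

open Classical in
lemma all_values (hs : (lam K 0).sp) (y : ℕ) (hy : y < (bN ^ n) ^ a) :
    ∃ A, Sub K a A ∧ (lam a A).g ∧
      ∑ j ∈ range a, (lam j (((3:ℤ) ^ (a - j)) • A)).s.val * (bN ^ n) ^ j = y := by
  have hroot := ((hP.sr K 0 (sub_root K)).1 hs).2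
  let L : ℕ → Z n := fun t => (t : ℤ) • e k0
  have hL : ∀ t, L (t + 1) = L t + e k0 := fun t => by simp only [L]; push_cast; rw [add_smul, one_smul]
  have hLs : ∀ t : ℕ, (t : ℤ) < 3 ^ (K - a) → Sub K a (L t) := fun t ht => by
    rw [sub_iff]
    refine ⟨haK, fun k => ?_⟩
    have : (0:ℤ) < 3 ^ (K - a) := by positivity
    simp only [L, Pi.smul_apply, smul_eq_mul, e_apply]
    split_ifs <;> omega
  let V : ℕ → ℕ := fun t => ∑ j ∈ range a, (lam j (((3:ℤ) ^ (a - j)) • L t)).s.val * (bN ^ n) ^ j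
  let Good : ℕ → Prop := fun y => ∃ t : ℕ, (t : ℤ) < 3 ^ (K - a) ∧ (lam a (L t)).W ∧ V t = y
  let c : ℕ → ℕ → Prop := fun t j => (lam a (L t)).W ∧
    ∀ i, i < j → (lam i (((3:ℤ) ^ (a - i)) • L t)).s.val + 1 = bN ^ n
  have hc : ∀ t j, c t (j + 1) ↔ c t j ∧ (lam j (((3:ℤ) ^ (a - j)) • L t)).s.val + 1 = bN ^ n := by
    intro t j
    constructor
    · rintro ⟨h3, h4⟩
      exact ⟨⟨h3, fun i hi => h4 i (by omega)⟩, h4 j (by omega)⟩
    · rintro ⟨⟨h3, h4⟩, h5⟩
      refine ⟨h3, fun i hi => ?_⟩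
      rcases Nat.lt_succ_iff_lt_or_eq.1 hi with hi | rfl
      · exact h4 i hi
      · exact h5
  have hcin : ∀ t : ℕ, (t : ℤ) < 3 ^ (K - a) → ((lam a (L t)).cin ↔ c t a) := fun t ht => by
    have := cin_iff hP hB ha1 haK hhi a le_rfl _ (hLs t ht)
      (free_high hP hB ha1 haK hhi _ _ (by omega) (hLs t ht))
    rwa [Nat.sub_self, anc_zero] at this
  have hlast : ∀ t : ℕ, c t a → V t + 1 = (bN ^ n) ^ a := fun t h => by
    have := counter_step (bN ^ n) (fun j => (lam j (((3:ℤ) ^ (a - j)) • L t)).s.val) (fun _ => 0)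
      (lam a (L t)).W (c t) (fun j => Fin.is_lt _) (by simp [c]) a (fun j _ => hc t j)
      (fun j hj => by
        rw [if_pos ⟨h.1, fun i hi => h.2 i (by omega)⟩, h.2 j hj, Nat.mod_self])
    rw [if_pos h, if_pos h.1] at this
    simp only [zero_mul, sum_const_zero, zero_add] at this
    exact this.symm
  have hstep : ∀ t : ℕ, ((t + 1 : ℕ) : ℤ) < 3 ^ (K - a) → ¬ c t a →
      V (t + 1) = V t + if (lam a (L t)).W then 1 else 0 := fun t ht h => by
    have := counter_step (bN ^ n) (fun j => (lam j (((3:ℤ) ^ (a - j)) • L t)).s.val)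
      (fun j => (lam j (((3:ℤ) ^ (a - j)) • L (t + 1))).s.val)
      (lam a (L t)).W (c t) (fun j => Fin.is_lt _) (by simp [c]) a (fun j _ => hc t j)
      (fun j hj => by
        rw [hL, cross hP hB ha1 haK hhi hj (hLs t (by push_cast at ht; omega))
          (by rw [← hL]; exact hLs _ ht)]
        simp only [true_and, c])
    rw [if_neg h] at this
    exact this
  have hfin : ∀ t : ℕ, (t : ℤ) < 3 ^ (K - a) → c t a → (∀ y, y < V t → Good y) →
      ∀ y, y < (bN ^ n) ^ a → Good y := by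
    intro t ht h1 h2 y hy
    have := hlast t h1
    rcases lt_or_ge y (V t) with h3 | h3
    · exact h2 y h3
    · exact ⟨t, ht, h1.1, by omega⟩
  have inv : ∀ t : ℕ, (t : ℤ) < 3 ^ (K - a) →
      ((lam a (L t)).done → ∀ y, y < (bN ^ n) ^ a → Good y) ∧
      (¬ (lam a (L t)).done → ∀ y, y < V t → Good y) := by
    intro t
    induction t with
    | zero =>
      intro ht
      have hL0 : L 0 = 0 := by simp [L]
      have s0 := hLs 0 ht
      refine ⟨fun h => ?_, fun _ y hy => ?_⟩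
      · exfalso
        refine (hP.sr a _ s0).2.2.2.1 (top_of hP hB ha1 haK hhi s0) ?_ h
        rw [flag_m hP k0 a _ haK s0 (free_high hP hB ha1 haK hhi _ _ (by omega) s0)]
        exact ⟨(hroot k0).1, by simp [hL0]⟩
      · exfalso
        have : V 0 = 0 := by
          refine Finset.sum_eq_zero fun j hj => ?_
          have hj := Finset.mem_range.1 hj
          rw [hL0, smul_zero]
          have s1 : Sub K j (0 : Z n) := sub_zero' (by omega)
          rw [(hP.sr j 0 s1).2.2.1 (by rw [hhi _ _ s1 (free_zero k0 j)]; omega) (by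
            rw [flag_m hP k0 j _ (by omega) s1 (free_zero k0 j)]; exact ⟨(hroot k0).1, rfl⟩)]
          simp
        omega
    | succ t ih =>
      intro ht
      have ht' : (t : ℤ) < 3 ^ (K - a) := by push_cast at ht; omega
      have ih := ih ht'
      have s1 := hLs t ht'
      have s2 := hLs _ ht
      rw [hL] at s2
      have hd := (hrel hP s1 s2 (free_high hP hB ha1 haK hhi _ _ (by omega) s1)
        (free_high hP hB ha1 haK hhi _ _ (by omega) s2)).2.2.2.1 (top_of hP hB ha1 haK hhi s1) rfl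
      rw [← hL, hcin t ht'] at hd
      rw [hd]
      refine ⟨fun h => ?_, fun h y hy => ?_⟩
      · by_cases h1 : (lam a (L t)).done
        · exact ih.1 h1
        · exact hfin t ht' (h.resolve_left h1) (ih.2 h1)
      · push Not at h
        rw [hstep t ht h.2] at hy
        split_ifs at hy with hW
        · rcases lt_or_ge y (V t) with h3 | h3
          · exact ih.2 h.1 y h3
          · exact ⟨t, ht', hW, by omega⟩
        · exact ih.2 h.1 y hy
  have hT : (((3 ^ (K - a) - 1 : ℕ) : ℤ)) + 1 = 3 ^ (K - a) := by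
    have : 0 < 3 ^ (K - a) := by positivity
    rw [Nat.cast_sub (by omega)]; push_cast; ring
  have hG : Good y := by
    have ht : (((3 ^ (K - a) - 1 : ℕ) : ℤ)) < 3 ^ (K - a) := by omega
    have s1 := hLs _ ht
    have := (hP.sr a _ s1).2.2.2.2.1 (top_of hP hB ha1 haK hhi s1) (by
      rw [flag_p hP k0 a _ haK s1 (free_high hP hB ha1 haK hhi _ _ (by omega) s1)]
      exact ⟨(hroot k0).2, by simp only [L, Pi.smul_apply, e_same, smul_eq_mul, mul_one]; exact hT⟩)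
    by_cases h1 : (lam a (L (3 ^ (K - a) - 1))).done
    · exact (inv _ ht).1 h1 y hy
    · exact hfin _ ht ((hcin _ ht).1 (this.resolve_left h1)) ((inv _ ht).2 h1) y hy
  obtain ⟨t, ht, hW, hV⟩ := hG
  have s1 := hLs t ht
  refine ⟨L t, s1, (hP.sr a _ s1).2.2.2.2.2.1 (top_of hP hB ha1 haK hhi s1) hW fun k hk => ?_, hV⟩
  rw [flag_m hP k a _ haK s1 (free_high hP hB ha1 haK hhi _ _ (by omega) s1)]
  exact ⟨(hroot k).1, by simp [L, e_ne hk]⟩

lemma cover_aux (hs : (lam K 0).sp) (r : Z n) :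
    ∃ c, Sub K 0 c ∧ (lam 0 c).st ∧ ∀ k, bZ ^ a ∣ x c k - r k := by
  set r' : Z n := r - (x 0 - Hs lam a 0) with hr'
  obtain ⟨A, hA, hg, hV⟩ := all_values hP hB ha1 haK hhi hs
    (∑ j ∈ range a, (dig r' j).val * (bN ^ n) ^ j) (digits_lt _ _ (fun j => Fin.is_lt _) a)
  have hd := digits_inj _ _ _ (fun j => Fin.is_lt _) (fun j => Fin.is_lt _) a hV
  obtain ⟨A', hA', hst, hs'⟩ := g_chain hP hB ha1 haK hhi hs _ A hA rfl hg
  obtain ⟨c, h1, h2, h3, h4, h5⟩ := st_chain hP hB ha1 haK hhi a le_rfl A' hA'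
    (free_high hP hB ha1 haK hhi _ _ (by omega) hA') hst
  refine ⟨c, h1, h4, fun k => ?_⟩
  have h6 : Hs lam a c k = r' k - bZ ^ a * (r' k / bZ ^ a) := by
    rw [← six_expand]
    simp only [Hs, Finset.sum_apply, Pi.smul_apply, smul_eq_mul]
    refine Finset.sum_congr rfl fun j hj => ?_
    have hj := Finset.mem_range.1 hj
    have s1 := h1.anc j (by omega)
    have f1 := h2.anc j
    rw [zero_add] at s1 f1
    rw [h5 j hj, s_const hP hB ha1 haK hhi hj s1 f1, ← anc_add, show j + (a - j) = a by omega, h3,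
      hs' j hj, Fin.ext (hd j hj), emb_dig]
  obtain ⟨m, hm⟩ := rigid hP hB haK h1 h2 k
  refine ⟨m - r' k / bZ ^ a, ?_⟩
  simp only [Pi.sub_apply, hr'] at hm h6 ⊢
  rw [mul_sub]; linarith

end Cover

theorem cover [Nontrivial (Fin n)] (hP : (sys k0).Pyr K lam) (hB : Base K lam x)
    (hs : (lam K 0).sp) : ∃ a,
      (∀ c, Sub K 0 c → (∀ j, j < a → ¬ (lam j (anc j c)).sp) → Free K lam 0 c) ∧
      ∀ r : Z n, ∃ c, Sub K 0 c ∧ (lam 0 c).st ∧ ∀ k, bZ ^ a ∣ x c k - r k := by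
  obtain ⟨a, ha1, haK, hhi⟩ := exists_level hP hB hs
  refine ⟨a, fun c hc h => free_of_fr hP hB ha1 haK hhi (by omega) hc fun i hi hT => ?_,
    cover_aux hP hB ha1 haK hhi hs⟩
  exact h i (by omega) (by simpa using hT.1)

theorem exists_not_st [Nontrivial (Fin n)] (hP : (sys k0).Pyr 1 lam) (hB : Base 1 lam x) :
    ∃ c, ¬ (lam 0 c).st := by
  by_contra h
  push Not at h
  have s0 : Sub 1 0 (0 : Z n) := sub_zero' (by omega)
  have s1 : Sub 1 0 (e k0) := by
    rw [sub_iff]; refine ⟨by omega, fun k => ?_⟩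
    rw [e_apply]; split_ifs <;> simp
  have p0 : pos (0 : Z n) = 0 := by funext k; simp [pos]
  have p1 : pos (e k0) = ep k0 := by
    have := pos_add_e 0 k0; rwa [zero_add, p0, zero_add] at this
  have n0 : ¬ (lam 0 0).sp := fun hs => zero_ne_ctr k0 (p0 ▸ (hP.spc 0 0 (by omega) s0 hs).1)
  have n1 : ¬ (lam 0 (e k0)).sp := fun hs => ep_ne_ctr k0 (p1 ▸ (hP.spc 0 _ (by omega) s1 hs).1)
  have a0 := (((hP.vr 0 0 (by omega) s0 n0).2.2.2 (hB.low 0 s0).1).2.2.2.1.1 (h 0)).2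
  have a1 := (((hP.vr 0 _ (by omega) s1 n1).2.2.2 (hB.low _ s1).1).2.2.2.1.1 (h _)).2
  rw [(s1.par (by omega)).root] at a1
  rw [par_zero, a1, p0, p1] at a0
  exact ep_ne_zero k0 a0

end

def dg (n i j : ℕ) : Fin (bN ^ n) := ⟨i / (bN ^ n) ^ j % bN ^ n, Nat.mod_lt _ (pow_pos bN_pos _)⟩

structure Reg (n : ℕ) : Type where
  K : ℕ
  a : ℕ
  v : ℕ → Z n
  ψ : Z n → Z n

namespace Reg

variable (k0 : Fin n) (ρ : Reg n)

def M : ℕ := (bN ^ n) ^ ρ.a

def col (i : ℕ) : ℤ := anc ρ.a (ρ.ψ (ρ.v i)) k0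

def isSt (j : ℕ) (C : Z n) (i : ℕ) : Prop := i < ρ.M ∧ j ≤ ρ.a ∧ anc j (ρ.ψ (ρ.v i)) = C

open Classical in
noncomputable def X (j : ℕ) (C : Z n) : Z n :=
  if h : ∃ i, ρ.isSt j C i then ρ.v h.choose else Classical.epsilon fun u => anc j (ρ.ψ u) = C

noncomputable def hh (j : ℕ) (C : Z n) : Z n := fun k => ρ.X j C k / bZ ^ j

noncomputable def V (t : ℤ) : ℕ := ((range ρ.M).filter fun i => ρ.col k0 i < t).card

def W (t : ℤ) : Prop := ∃ i, i < ρ.M ∧ ρ.col k0 i = t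

def cl (j : ℕ) (C : Z n) : ℤ := anc (ρ.a - j) C k0

open Classical in
noncomputable def reg (j : ℕ) (C : Z n) : Lam n where
  sp := j = ρ.K
  hi := ρ.a ≤ j
  top := j = ρ.a
  G := (3:ℤ) ^ (ρ.a - j) ∣ C k0 + 1
  W := ρ.W k0 (ρ.cl k0 j C)
  cin := ρ.W k0 (ρ.cl k0 j C) ∧ (bN ^ n) ^ j ∣ ρ.V k0 (ρ.cl k0 j C) + 1
  done := ρ.M ≤ ρ.V k0 (ρ.cl k0 j C)
  g := j = ρ.a ∧ ∃ i, i < ρ.M ∧ ρ.col k0 i = C k0 ∧ ∀ k, C k ≤ anc ρ.a (ρ.ψ (ρ.v i)) k
  st := ∃ i, ρ.isSt j C i
  Fm k := C k = 0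
  Fp k := C k + 1 = 3 ^ (ρ.K - j)
  d := clamp (ρ.hh j C - bZ • ρ.hh (j + 1) (par C))
  inc k := clamp (ρ.hh j (C + e k) - ρ.hh j C)
  s := dg n (ρ.V k0 (ρ.cl k0 j C)) j
  ptr := if h : ∃ k i, i < ρ.M ∧ ρ.col k0 i = C k0 ∧ C k < anc ρ.a (ρ.ψ (ρ.v i)) k
    then some h.choose else none
  ch := pos (anc (j - 1) (ρ.ψ (ρ.X j C)))

structure OK : Prop where
  grid : IsGrid ρ.ψ
  a1 : 1 ≤ ρ.a
  aK : ρ.a < ρ.K
  inP : ∀ i, i < ρ.M → Sub ρ.K 0 (ρ.ψ (ρ.v i))
  mono : ∀ i i', i < i' → i' < ρ.M → ρ.col k0 i < ρ.col k0 i'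
  dig : ∀ i, i < ρ.M → ∀ j, j < ρ.a → ∀ k, ρ.v i k / bZ ^ j % bZ = emb (dg n i j) k

variable {k0 ρ} (h : ρ.OK k0)
include h

lemma OK.col_inj {i i' : ℕ} (hi : i < ρ.M) (hi' : i' < ρ.M) (hc : ρ.col k0 i = ρ.col k0 i') :
    i = i' := by
  rcases lt_trichotomy i i' with h1 | h1 | h1
  · have := h.mono i i' h1 hi'; omega
  · exact h1
  · have := h.mono i' i h1 hi; omega

omit h in
lemma isSt.cl {j : ℕ} {C : Z n} {i : ℕ} (hs : ρ.isSt j C i) : ρ.cl k0 j C = ρ.col k0 i := by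
  unfold Reg.cl Reg.col
  rw [← hs.2.2, ← anc_add, show j + (ρ.a - j) = ρ.a by have := hs.2.1; omega]

lemma OK.X_st {j : ℕ} {C : Z n} {i : ℕ} (hs : ρ.isSt j C i) : ρ.X j C = ρ.v i := by
  have hex : ∃ i, ρ.isSt j C i := ⟨i, hs⟩
  unfold Reg.X
  rw [dif_pos hex, h.col_inj hex.choose_spec.1 hs.1
    (by rw [← hex.choose_spec.cl (k0 := k0), hs.cl])]

lemma OK.X_spec (j : ℕ) (C : Z n) : anc j (ρ.ψ (ρ.X j C)) = C := by
  by_cases hex : ∃ i, ρ.isSt j C i
  · obtain ⟨i, hi⟩ := hex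
    rw [h.X_st hi]; exact hi.2.2
  · unfold Reg.X
    rw [dif_neg hex]
    obtain ⟨u, hu⟩ := h.grid.surj (((3:ℤ) ^ j) • C)
    exact Classical.epsilon_spec (p := fun u => anc j (ρ.ψ u) = C) ⟨u, by rw [hu, anc_smul]⟩

lemma OK.close {j : ℕ} {u u' : Z n} (hu : nb (ρ.ψ u - ρ.ψ u') (3 ^ (j + 1))) (k : Fin n) :
    |u k / bZ ^ j - u' k / bZ ^ j| ≤ 3 * Mc n + C1 n := by
  refine div_close (pow_pos bZ_pos _) ((h.grid.coarse u' u (by positivity) hu k).trans ?_)
  have h1 : (3:ℤ) ^ j ≤ bZ ^ j := pow_le_pow_left₀ (by norm_num) bZ_ge j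
  have h2 : (1:ℤ) ≤ bZ ^ j := one_le_pow₀ bZ_pos
  have := Mc_pos n; have := C1_pos n
  rw [pow_succ]; nlinarith

lemma OK.d_val (j : ℕ) (C : Z n) :
    (ρ.reg k0 j C).d.1 = ρ.hh j C - bZ • ρ.hh (j + 1) (par C) := by
  refine clamp_val fun k => ?_
  have h1 := h.close (j := j) (u := ρ.X j C) (u' := ρ.X (j + 1) (par C)) (fun l => by
    have a1 := (anc_eq_iff (j + 1) _ _).1
      (show anc (j + 1) (ρ.ψ (ρ.X j C)) = par C by rw [anc_succ, h.X_spec]) l
    have a2 := (anc_eq_iff (j + 1) _ _).1 (h.X_spec (j + 1) (par C)) l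
    rw [Pi.sub_apply, abs_le]; constructor <;> linarith [a1.1, a1.2, a2.1, a2.2]) k
  simp only [Pi.sub_apply, Pi.smul_apply, smul_eq_mul, Reg.hh, Bd]
  rw [pow_succ bZ j, ← Int.ediv_ediv_of_nonneg (pow_pos bZ_pos _).le]
  rw [abs_le] at h1 ⊢
  have a1 := Int.mul_ediv_add_emod (ρ.X (j + 1) (par C) k / bZ ^ j) bZ
  have a2 := Int.emod_nonneg (ρ.X (j + 1) (par C) k / bZ ^ j) bZ_pos.ne'
  have a3 := Int.emod_lt_of_pos (ρ.X (j + 1) (par C) k / bZ ^ j) bZ_pos
  constructor <;> linarith [h1.1, h1.2]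

lemma OK.inc_val (j : ℕ) (C : Z n) (k : Fin n) :
    ((ρ.reg k0 j C).inc k).1 = ρ.hh j (C + e k) - ρ.hh j C := by
  refine clamp_val fun l => ?_
  have h1 := h.close (j := j) (u := ρ.X j (C + e k)) (u' := ρ.X j C) (fun l => by
    have a1 := (anc_eq_iff j _ _).1 (h.X_spec j (C + e k)) l
    have a2 := (anc_eq_iff j _ _).1 (h.X_spec j C) l
    have : (0:ℤ) < 3 ^ j := by positivity
    rw [Pi.add_apply, e_apply] at a1
    rw [Pi.sub_apply, abs_le, pow_succ]
    split_ifs at a1 <;> constructor <;> linarith [a1.1, a1.2, a2.1, a2.2]) l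
  simp only [Pi.sub_apply, Reg.hh, Bd]
  have := bZ_pos
  omega

open Classical in
lemma OK.V_succ (t : ℤ) : ρ.V k0 (t + 1) = ρ.V k0 t + if ρ.W k0 t then 1 else 0 := by
  unfold Reg.V
  split_ifs with hW
  · obtain ⟨i, hi, hc⟩ := hW
    rw [← Finset.card_insert_of_notMem (a := i) (by simp [hc])]
    congr 1
    ext i'
    simp only [mem_filter, mem_range, mem_insert]
    constructor
    · rintro ⟨h1, h2⟩
      by_cases h3 : ρ.col k0 i' = t
      · left; exact h.col_inj h1 hi (by rw [h3, hc])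
      · right; exact ⟨h1, by omega⟩
    · rintro (rfl | ⟨h1, h2⟩)
      · exact ⟨hi, by omega⟩
      · exact ⟨h1, by omega⟩
  · rw [add_zero]
    congr 1
    ext i'
    simp only [mem_filter, mem_range]
    refine and_congr_right fun h1 => ⟨fun h2 => ?_, fun h2 => by omega⟩
    have : ρ.col k0 i' ≠ t := fun h3 => hW ⟨i', h1, h3⟩
    omega

lemma OK.V_col {i : ℕ} (hi : i < ρ.M) : ρ.V k0 (ρ.col k0 i) = i := by
  unfold Reg.V
  conv_rhs => rw [← Finset.card_range i]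
  congr 1
  ext i'
  simp only [mem_filter, mem_range]
  constructor
  · rintro ⟨h1, h2⟩
    by_contra h3
    rcases (not_lt.1 h3).lt_or_eq with h4 | h4
    · have := h.mono i i' h4 h1; omega
    · subst h4; omega
  · intro h1; exact ⟨by omega, h.mono i' i h1 hi⟩

lemma OK.A_sub {i : ℕ} (hi : i < ρ.M) (k : Fin n) :
    0 ≤ anc ρ.a (ρ.ψ (ρ.v i)) k ∧ anc ρ.a (ρ.ψ (ρ.v i)) k < 3 ^ (ρ.K - ρ.a) := by
  have := (h.inP i hi).anc ρ.a (by have := h.aK; omega)
  rw [zero_add] at this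
  exact (sub_iff.1 this).2 k

lemma OK.V_zero : ρ.V k0 0 = 0 := by
  unfold Reg.V
  rw [Finset.card_eq_zero, Finset.filter_eq_empty_iff]
  intro i hi
  have := (h.A_sub (mem_range.1 hi) k0).1
  unfold Reg.col; omega

lemma OK.V_top : ρ.V k0 (3 ^ (ρ.K - ρ.a)) = ρ.M := by
  unfold Reg.V
  rw [Finset.filter_true_of_mem, Finset.card_range]
  intro i hi
  exact (h.A_sub (mem_range.1 hi) k0).2

open Classical in
lemma OK.done_iff (t : ℤ) : ρ.M ≤ ρ.V k0 (t + 1) ↔
    ρ.M ≤ ρ.V k0 t ∨ (ρ.W k0 t ∧ (bN ^ n) ^ ρ.a ∣ ρ.V k0 t + 1) := by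
  rw [h.V_succ]
  by_cases hW : ρ.W k0 t
  · obtain ⟨i, hi, rfl⟩ := hW
    rw [if_pos ⟨i, hi, rfl⟩, h.V_col hi]
    constructor
    · intro h1
      exact Or.inr ⟨⟨i, hi, rfl⟩, by rw [show i + 1 = ρ.M by omega]; exact dvd_rfl⟩
    · rintro (h1 | ⟨-, h1⟩)
      · omega
      · exact Nat.le_of_dvd (by omega) h1
  · simp [hW]

omit h in
lemma cl_top (C : Z n) : ρ.cl k0 ρ.a C = C k0 := by simp [Reg.cl]

lemma OK.sr {j : ℕ} {C : Z n} (hC : Sub ρ.K j C) : (sys k0).SR (ρ.reg k0 j C) := by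
  refine ⟨?_, ?_, ?_, ?_, ?_, ?_, ?_⟩
  · rintro (rfl : j = ρ.K)
    rw [hC.root]
    exact ⟨h.aK.le, fun k => ⟨rfl, by simp [Reg.reg]⟩⟩
  · rintro (rfl : j = ρ.a); simp [Reg.reg]
  · intro _ (h1 : C k0 = 0)
    have : ρ.cl k0 j C = 0 := by simp [Reg.cl, anc, h1]
    simp [Reg.reg, dg, this, h.V_zero]
  · rintro (rfl : j = ρ.a) (h1 : C k0 = 0)
    have : 0 < ρ.M := pow_pos (pow_pos bN_pos _) _
    simp only [Reg.reg, cl_top, h1, h.V_zero]; omega
  · rintro (rfl : j = ρ.a) (h1 : C k0 + 1 = _)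
    simp only [Reg.reg, cl_top]
    rw [← h.done_iff, h1, h.V_top]
  · rintro (rfl : j = ρ.a) ⟨i, hi, h1⟩ h2
    rw [cl_top] at h1
    refine ⟨rfl, i, hi, h1, fun k => ?_⟩
    by_cases hk : k = k0
    · rw [hk, ← h1]; rfl
    · rw [show C k = 0 from h2 k hk]; exact (h.A_sub hi k).1
  · rintro ⟨rfl, i, hi, h1, h2⟩
    by_cases hex : ∃ k i, i < ρ.M ∧ ρ.col k0 i = C k0 ∧ C k < anc ρ.a (ρ.ψ (ρ.v i)) k
    · right
      obtain ⟨i', h3, h4, h5⟩ := hex.choose_spec
      refine ⟨hex.choose, fun h6 => ?_, by simp only [Reg.reg]; rw [dif_pos hex], fun h6 => ?_⟩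
      · rw [h6, ← h4] at h5; exact lt_irrefl _ h5
      · have := (h.A_sub h3 hex.choose).2
        simp only [Reg.reg] at h6
        omega
    · left
      refine ⟨by simp only [Reg.reg]; rw [dif_neg hex], i, hi, le_rfl, funext fun k => ?_⟩
      have h3 : ¬ C k < anc ρ.a (ρ.ψ (ρ.v i)) k := fun h3 => hex ⟨k, i, hi, h1, h3⟩
      have := h2 k
      omega

omit h in
lemma cl_par {j : ℕ} (hj : j < ρ.a) (C : Z n) : ρ.cl k0 (j + 1) (par C) = ρ.cl k0 j C := by
  unfold Reg.cl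
  rw [← anc_succ', show ρ.a - (j + 1) + 1 = ρ.a - j by omega]

omit h in
lemma isSt.par {j : ℕ} {C : Z n} {i : ℕ} (hs : ρ.isSt j C i) (hj : j < ρ.a) :
    ρ.isSt (j + 1) (par C) i := ⟨hs.1, hj, by rw [anc_succ, hs.2.2]⟩

lemma OK.st_iff {j : ℕ} (hj : j < ρ.a) (C : Z n) : (ρ.reg k0 j C).st ↔
    (ρ.reg k0 (j + 1) (par C)).st ∧ (ρ.reg k0 (j + 1) (par C)).ch = pos C := by
  simp only [Reg.reg, Nat.add_sub_cancel]
  constructor
  · rintro ⟨i, hi⟩
    exact ⟨⟨i, hi.par hj⟩, by rw [h.X_st (hi.par hj), hi.2.2]⟩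
  · rintro ⟨⟨i, hi⟩, h2⟩
    rw [h.X_st hi] at h2
    exact ⟨i, hi.1, hj.le, eq_of_par_pos (by rw [← anc_succ]; exact hi.2.2) h2⟩

lemma OK.vr {j : ℕ} (C : Z n) (hj : j < ρ.K) :
    (sys k0).VR (pos C) (ρ.reg k0 j C) (ρ.reg k0 (j + 1) (par C)) := by
  refine ⟨fun k => ⟨?_, ?_⟩, ?_, ?_, fun h1 => ⟨?_, ?_, ?_, h.st_iff (not_le.1 h1) C, ?_⟩⟩
  · simp only [Reg.reg, par, pos_zero_iff]; omega
  · simp only [Reg.reg, par, pos_two_iff, pow_sub_succ hj]; omega
  · simp only [Reg.reg]; omega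
  · simp only [Reg.reg]; omega
  · have hj : j < ρ.a := not_le.1 h1
    simp only [Reg.reg, par, pos_two_iff, pow_sub_succ hj]
    constructor
    · rintro ⟨m, h1⟩
      rw [mul_assoc] at h1
      exact ⟨⟨m, by omega⟩, by omega⟩
    · rintro ⟨⟨m, h1⟩, h2⟩
      exact ⟨m, by rw [mul_assoc]; omega⟩
  · simp only [Reg.reg, cl_par (not_le.1 h1)]
  · simp only [Reg.reg, cl_par (not_le.1 h1), dg]
    rw [pow_succ_dvd_iff (pow_pos bN_pos _), and_assoc]
  · rintro ⟨i, hi⟩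
    have hj : j < ρ.a := not_le.1 h1
    rw [h.d_val]
    funext k
    have : (ρ.reg k0 j C).s = dg n i j := by simp only [Reg.reg]; rw [hi.cl, h.V_col hi.1]
    rw [this, ← h.dig i hi.1 j hj k]
    simp only [Pi.sub_apply, Pi.smul_apply, smul_eq_mul, Reg.hh, h.X_st hi, h.X_st (hi.par hj)]
    rw [pow_succ bZ j, ← Int.ediv_ediv_of_nonneg (pow_pos bZ_pos _).le]
    have := Int.mul_ediv_add_emod (ρ.v i k / bZ ^ j) bZ
    linarith

omit h in
lemma cl_add_ne {j : ℕ} (C : Z n) {k : Fin n} (hk : k ≠ k0) :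
    ρ.cl k0 j (C + e k) = ρ.cl k0 j C := by
  simp [Reg.cl, anc, e_ne hk.symm]

omit h in
lemma cl_add_dvd {j : ℕ} {C : Z n} (hd : (3:ℤ) ^ (ρ.a - j) ∣ C k0 + 1) :
    ρ.cl k0 j (C + e k0) = ρ.cl k0 j C + 1 := by
  obtain ⟨m, hm⟩ := hd
  have hp : (0:ℤ) < 3 ^ (ρ.a - j) := by positivity
  simp only [Reg.cl, anc, Pi.add_apply, e_same]
  rw [hm, Int.mul_ediv_cancel_left _ hp.ne', show C k0 = (3 ^ (ρ.a - j) - 1) +
    (m - 1) * 3 ^ (ρ.a - j) by linarith, Int.add_mul_ediv_right _ _ hp.ne',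
    Int.ediv_eq_zero_of_lt (by omega) (by omega)]
  ring

omit h in
lemma cl_add_not {j : ℕ} {C : Z n} (hd : ¬ (3:ℤ) ^ (ρ.a - j) ∣ C k0 + 1) :
    ρ.cl k0 j (C + e k0) = ρ.cl k0 j C := by
  have hp : (0:ℤ) < 3 ^ (ρ.a - j) := by positivity
  simp only [Reg.cl, anc, Pi.add_apply, e_same]
  have h1 := Int.mul_ediv_add_emod (C k0) (3 ^ (ρ.a - j))
  have h2 := Int.emod_nonneg (C k0) hp.ne'
  have h3 := Int.emod_lt_of_pos (C k0) hp
  have h4 : C k0 % 3 ^ (ρ.a - j) + 1 ≠ 3 ^ (ρ.a - j) := fun h4 =>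
    hd ⟨C k0 / 3 ^ (ρ.a - j) + 1, by rw [mul_add]; omega⟩
  rw [show C k0 + 1 = (C k0 % 3 ^ (ρ.a - j) + 1) + (C k0 / 3 ^ (ρ.a - j)) * 3 ^ (ρ.a - j) by
    linarith, Int.add_mul_ediv_right _ _ hp.ne', Int.ediv_eq_zero_of_lt (by omega) (by omega),
    zero_add]

lemma OK.hr (j : ℕ) (C : Z n) (k : Fin n) :
    (sys k0).HR k (pos C) (ρ.reg k0 j C) (ρ.reg k0 j (C + e k)) (ρ.reg k0 (j + 1) (par C)) := by
  intro _ _
  refine ⟨Iff.rfl, ?_, fun _ => ?_, ?_, ?_⟩
  · rw [h.inc_val, h.d_val, h.d_val, h.inc_val]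
    split_ifs with h1
    · rw [par_add_e_of_eq h1, smul_sub]; abel
    · rw [par_add_e_of_ne h1]; abel
  · simp only [Reg.reg, dg]
    by_cases hk : k = k0
    · subst hk
      by_cases hd : (3:ℤ) ^ (ρ.a - j) ∣ C k + 1
      · rw [cl_add_dvd hd, h.V_succ]
        by_cases hW : ρ.W k (ρ.cl k j C)
        · simp only [hW, hd, true_and, if_true]
          rw [Nat.succ_div]
          split_ifs
          · rw [Nat.mod_add_mod]
          · rfl
        · simp [hW]
      · rw [cl_add_not hd]; simp [hd]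
    · rw [cl_add_ne C hk]; simp [hk]
  · rintro (rfl : j = ρ.a) rfl
    simp only [Reg.reg, cl_top, Pi.add_apply, e_same]
    exact h.done_iff _
  · rintro ⟨rfl, i, hi, h1, h2⟩ h3
    simp only [Reg.reg] at h3
    split_ifs at h3 with hex
    obtain ⟨i', h4, h5, h6⟩ := hex.choose_spec
    rw [Option.some.inj h3] at h6
    obtain rfl : i' = i := h.col_inj h4 hi (by rw [h5, h1])
    have hk : k ≠ k0 := by
      rintro rfl; rw [← h5] at h6; exact lt_irrefl _ h6
    refine ⟨rfl, i', hi, by simp [h1, e_ne hk.symm], fun l => ?_⟩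
    have := h2 l
    rw [Pi.add_apply, e_apply]
    split_ifs with hl
    · subst hl; omega
    · omega

lemma OK.ps {j : ℕ} {C : Z n} (hj : j + 1 < ρ.a) (hp : pos C = ctr)
    (hs : ∀ i, i < ρ.M → anc j (ρ.ψ (ρ.v i)) ≠ C) : (sys k0).PS (ρ.reg k0 (j + 1) (par C)) := by
  refine ⟨not_le.2 hj, fun h1 => ?_⟩
  obtain ⟨i, hi⟩ := (h.st_iff (j := j) (by omega) C).2 (by rw [hp]; exact h1)
  exact hs i hi.1 hi.2.2

lemma OK.low (c : Z n) : ¬ (ρ.reg k0 0 c).hi ∧ ((ρ.reg k0 0 c).cin ↔ (ρ.reg k0 0 c).W) := by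
  have := h.a1
  refine ⟨by simp only [Reg.reg]; omega, by simp [Reg.reg]⟩

lemma OK.inc0 (c : Z n) (k : Fin n) :
    ((ρ.reg k0 0 c).inc k).1 = ρ.X 0 (c + e k) - ρ.X 0 c := by
  rw [h.inc_val]; funext l; simp [Reg.hh]

end Reg

end Pool.Agent.MP_c4ca5b_lc.B
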