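import Pool.Agent.MP_c4ca5b_lc.Per.Odo

/-! The hierarchy problem is solved under local recurrence; the dichotomy. -/

set_option linter.unusedSectionVars false

namespace Pool.Agent.MP_c4ca5b_lc.B

open Finset Filter Topology

variable [Bs] {n : ℕ}

lemma base_digits : ∀ (a : ℕ) (x : ℤ) (d : ℕ → ℤ), (∀ j, 0 ≤ d j ∧ d j < bZ) →
    bZ ^ a ∣ x - ∑ j ∈ range a, bZ ^ j * d j → ∀ j, j < a → x / bZ ^ j % bZ = d j := by
  intro a
  induction a with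
  | zero => intro _ _ _ _ j hj; omega
  | succ a ih =>
    rintro x d hd ⟨m, hm⟩ j hj
    rw [sum_range_succ'] at hm
    have h1 : ∑ k ∈ range a, bZ ^ (k + 1) * d (k + 1) =
        bZ * ∑ k ∈ range a, bZ ^ k * d (k + 1) := by
      rw [Finset.mul_sum]; exact Finset.sum_congr rfl fun k _ => by ring
    have h2 : x = d 0 + bZ * (∑ k ∈ range a, bZ ^ k * d (k + 1) + bZ ^ a * m) := by
      rw [h1] at hm
      linear_combination hm
    have h0 := hd 0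
    rcases j with _ | j
    · rw [pow_zero, Int.ediv_one, h2, Int.add_mul_emod_self_left, Int.emod_eq_of_lt h0.1 h0.2]
    · rw [pow_succ', ← Int.ediv_ediv_of_nonneg bZ_pos.le]
      refine ih (x / bZ) (fun j => d (j + 1)) (fun j => hd _) ⟨m, ?_⟩ j (by omega)
      rw [h2, Int.add_mul_ediv_left _ _ bZ_pos.ne', Int.ediv_eq_zero_of_lt h0.1 h0.2]
      ring

variable {X : Type} [TopologicalSpace X] [AddAction (Fin n → ℤ) X]
  [ContinuousConstVAdd (Fin n → ℤ) X]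

/-- Every open subset of `Ω` returns to itself in every class modulo every power of the base. -/
def LT (n : ℕ) {X : Type} [TopologicalSpace X] [AddAction (Fin n → ℤ) X] (Ω : Set X) : Prop :=
  ∀ (a : ℕ) (r : Z n) (U : Set X), IsOpen U → U.Nonempty → U ⊆ Ω →
    ∃ v : Z n, (∀ k, bZ ^ a ∣ v k - r k) ∧ ∃ x ∈ U, v +ᵥ x ∈ U

/-- The saturation of `V` is dense in `Ω`. -/
def Den (n : ℕ) {X : Type} [TopologicalSpace X] [AddAction (Fin n → ℤ) X] (Ω V : Set X) : Prop :=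
  ∀ O : Set X, IsOpen O → O.Nonempty → O ⊆ Ω → ∃ v : Z n, ∃ x ∈ O, v +ᵥ x ∈ V

variable {Ω : Set X}

lemma far_return (hT : LT n Ω) (k0 : Fin n) (a : ℕ) (r : Z n) {U V : Set X} (hU : IsOpen U)
    (hV : IsOpen V) (hUn : U.Nonempty) (hUs : U ⊆ Ω) (hVn : Den n Ω V) (B : ℤ) :
    ∃ v : Z n, (∀ k, bZ ^ a ∣ v k - r k) ∧ B ≤ v k0 ∧ ∃ x ∈ U, v +ᵥ x ∈ V := by
  obtain ⟨v0, h1, x0, h2, h3⟩ : ∃ v : Z n, (∀ k, bZ ^ a ∣ v k - r k) ∧ ∃ x ∈ U, v +ᵥ x ∈ V := by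
    obtain ⟨v, x, h1, h2⟩ := hVn U hU hUn hUs
    obtain ⟨w, h3, y, h4, h5⟩ := hT a (r - v) _ (hU.inter (open_pre hV v)) ⟨x, h1, h2⟩
      (Set.inter_subset_left.trans hUs)
    refine ⟨v + w, fun k => ?_, y, h4.1, by rw [add_vadd]; exact h5.2⟩
    obtain ⟨t, ht⟩ := h3 k
    exact ⟨t, by simp only [Pi.add_apply, Pi.sub_apply] at ht ⊢; linarith⟩
  have hU' : IsOpen (U ∩ {x : X | v0 +ᵥ x ∈ V}) := hU.inter (open_pre hV v0)
  set b : ℕ := (B - v0 k0).toNat with hb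
  obtain ⟨l, h4, x, h5, h6⟩ := hT (a + b + 1) ((bZ ^ (a + b)) • e k0) _ hU'
    ⟨x0, h2, h3⟩ (Set.inter_subset_left.trans hUs)
  have h7 : ∀ k, bZ ^ a ∣ l k := fun k => by
    have := ((pow_dvd_pow bZ (by omega : a ≤ a + b + 1)).trans (h4 k)).add
      (((pow_dvd_pow bZ (by omega : a ≤ a + b))).mul_right (e k0 k))
    simpa using this
  have h8 : B - v0 k0 ≤ bZ ^ (a + b) := by
    have h9 : a + b < bN ^ (a + b) := Nat.lt_pow_self (by have := bN_ge; omega)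
    have h10 : ((a + b : ℕ) : ℤ) < bZ ^ (a + b) := by rw [bZ_eq]; exact_mod_cast h9
    omega
  obtain ⟨m, hm⟩ := h4 k0
  simp only [Pi.smul_apply, e_same, smul_eq_mul, mul_one] at hm
  have hp : (0:ℤ) < bZ ^ (a + b) := pow_pos bZ_pos _
  have hb3 := bZ_ge
  rw [pow_succ, mul_assoc] at hm
  rcases le_or_gt 0 m with h9 | h9
  · refine ⟨v0 + l, fun k => ?_, ?_, x, h5.1, by rw [add_vadd]; exact h6.2⟩
    · obtain ⟨t, ht⟩ := (h1 k).add (h7 k)
      exact ⟨t, by simp only [Pi.add_apply]; linarith⟩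
    · have := mul_nonneg hp.le (mul_nonneg bZ_pos.le h9)
      simp only [Pi.add_apply]; linarith
  · refine ⟨v0 - l, fun k => ?_, ?_, l +ᵥ x, h6.1, by
      rw [← add_vadd, sub_add_cancel]; exact h5.2⟩
    · obtain ⟨t, ht⟩ := (h1 k).sub (h7 k)
      exact ⟨t, by simp only [Pi.sub_apply]; linarith⟩
    · have a1 : bZ * m ≤ -2 := by nlinarith
      have := mul_le_mul_of_nonneg_left a1 hp.le
      simp only [Pi.sub_apply]; linarith

lemma stations (hT : LT n Ω) (k0 : Fin n) (a : ℕ) (r : ℕ → Z n) (Γ : ℤ) {W V : Set X}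
    (hW : IsOpen W) (hV : IsOpen V) (hWn : W.Nonempty) (hWs : W ⊆ Ω) (hVn : Den n Ω V) (N : ℕ) :
    ∃ (W' : Set X) (v : ℕ → Z n), IsOpen W' ∧ W'.Nonempty ∧ W' ⊆ W ∧
      (∀ i, i < N → (∀ k, bZ ^ a ∣ v i k - r i k) ∧ ∀ x ∈ W', v i +ᵥ x ∈ V) ∧
      ∀ i i', i < i' → i' < N → v i k0 + Γ ≤ v i' k0 := by
  induction N with
  | zero => exact ⟨W, fun _ => 0, hW, hWn, le_rfl, by simp, by simp⟩
  | succ N ih =>
    obtain ⟨W', v, h1, h2, h3, h4, h5⟩ := ih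
    obtain ⟨B, -, hB⟩ := exists_bound (fun i => v i k0 + Γ) N 0
    obtain ⟨w, h6, h7, x, h8, h9⟩ := far_return hT k0 a (r N) h1 hV h2 (h3.trans hWs) hVn B
    refine ⟨W' ∩ {x : X | w +ᵥ x ∈ V}, Function.update v N w, h1.inter (open_pre hV w),
      ⟨x, h8, h9⟩, Set.inter_subset_left.trans h3, fun i hi => ?_, fun i i' hi hi' => ?_⟩
    · rcases Nat.lt_succ_iff_lt_or_eq.1 hi with hi | rfl
      · rw [Function.update_of_ne hi.ne]
        exact ⟨(h4 i hi).1, fun x hx => (h4 i hi).2 x hx.1⟩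
      · rw [Function.update_self]
        exact ⟨h6, fun x hx => hx.2⟩
    · rw [Function.update_of_ne (by omega : i ≠ N)]
      rcases Nat.lt_succ_iff_lt_or_eq.1 hi' with hi' | rfl
      · rw [Function.update_of_ne hi'.ne]; exact h5 i i' hi hi'
      · rw [Function.update_self]; exact (hB i hi).trans h7

structure StSelf (k0 : Fin n) (Ω : Set X) (W : ℕ → Set X) (s : ℕ) (d : Stage n X) : Prop where
  oU : IsOpen d.U
  oV : IsOpen d.V
  xU : d.x ∈ d.U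
  nV : Den n Ω d.V
  UW : d.U ⊆ W s
  s0 : Rw n ≤ d.S
  a1 : 1 ≤ d.a
  aK : d.a + 3 ≤ d.K
  kk : kst n ≤ d.K
  bd : Bd n ≤ 3 ^ (d.K - 2)
  sep : ∀ y ∈ d.U, ∀ w : Z n, w ≠ 0 → nb w (2 * Rp n s d.K d.S) → w +ᵥ y ∉ d.U
  avoid : ∀ y ∈ d.V, ∀ w : Z n, nb w (rho n d.K) → w +ᵥ y ∉ d.U
  vin : ∀ i, i < (bN ^ n) ^ d.a → nb (d.v i) (3 ^ (d.K - 2))
  vgap : ∀ i i', i < i' → i' < (bN ^ n) ^ d.a → d.v i k0 + 8 * 3 ^ d.a ≤ d.v i' k0
  vdig : ∀ i, i < (bN ^ n) ^ d.a → ∀ j, j < d.a → ∀ k, d.v i k / bZ ^ j % bZ = emb (dg n i j) k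

structure StPair (t s : ℕ) (c d : Stage n X) : Prop where
  ss : c.S + 2 * Rp n t c.K c.S ≤ d.S
  aa : c.K + 2 ≤ d.a
  VV : d.V ⊆ c.V
  dec : ∀ y ∈ d.U, ∀ w : Z n, nb w (Rp n s d.K d.S) → (w +ᵥ y ∈ c.U ↔ w +ᵥ d.x ∈ c.U)
  st : ∀ i, i < (bN ^ n) ^ d.a → d.v i +ᵥ d.x ∈ c.V

lemma den_step {U V0 V1 : Set X} {ρ : ℤ} {u : Z n} (h0 : Den n Ω V0) (h1 : IsOpen V1)
    (h2 : ∀ y ∈ V1, ∀ w : Z n, nb w ρ → w +ᵥ y ∉ U) (h3 : ∀ y ∈ U, u +ᵥ y ∈ V0 ∩ V1) :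
    Den n Ω (V0 \ closure {y | ∃ w : Z n, nb w ρ ∧ w +ᵥ y ∈ U}) := by
  intro O hO hOn hOs
  obtain ⟨v, x, hx, hv⟩ := h0 O hO hOn hOs
  by_cases hc : v +ᵥ x ∈ closure {y | ∃ w : Z n, nb w ρ ∧ w +ᵥ y ∈ U}
  · obtain ⟨y, a1, w, -, a2⟩ := mem_closure_iff.1 hc _ (open_pre hO (-v))
      (by simpa [← add_vadd] using hx)
    refine ⟨u + w + v, -v +ᵥ y, a1, ?_⟩
    rw [← add_vadd, add_neg_cancel_right, add_vadd]
    refine ⟨(h3 _ a2).1, fun h4 => ?_⟩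
    obtain ⟨y', b1, w', b2, b3⟩ := mem_closure_iff.1 h4 _ h1 (h3 _ a2).2
    exact h2 y' b1 w' b2 b3
  · exact ⟨v, x, hx, hv, hc⟩

lemma exists_stage [T2Space X] (hT : LT n Ω) (hf : IsFree n X) (k0 : Fin n) {W : ℕ → Set X}
    (hW : ∀ s, IsOpen (W s) ∧ (W s).Nonempty ∧ W s ⊆ Ω) (s : ℕ) (f : ℕ → Stage n X)
    (h1 : ∀ t, t < s → StSelf k0 Ω W t (f t))
    (h2 : ∀ t t', t < t' → t' < s → StPair t t' (f t) (f t')) :
    ∃ d, StSelf k0 Ω W s d ∧ ∀ t, t < s → StPair t s (f t) d := by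
  classical
  obtain ⟨V0, hV1, hV2, hV3⟩ : ∃ V0 : Set X, IsOpen V0 ∧ Den n Ω V0 ∧
      ∀ t, t < s → V0 ⊆ (f t).V := by
    rcases s with _ | s
    · exact ⟨Set.univ, isOpen_univ, fun O _ ⟨x, hx⟩ _ => ⟨0, x, hx, trivial⟩, by simp⟩
    · refine ⟨(f s).V, (h1 s (by omega)).oV, (h1 s (by omega)).nV, fun t ht => ?_⟩
      rcases Nat.lt_succ_iff_lt_or_eq.1 ht with ht | rfl
      · exact (h2 t s ht (by omega)).VV
      · exact le_rfl
  obtain ⟨a, ha1, ha2⟩ : ∃ a : ℕ, 1 ≤ a ∧ ∀ t, t < s → (f t).K + 2 ≤ a := by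
    obtain ⟨A, h3, h4⟩ := exists_bound (fun t => ((f t).K + 2 : ℕ)) s 1
    exact ⟨A.toNat, by omega, fun t ht => by have := h4 t ht; omega⟩
  obtain ⟨S, hS1, hS2⟩ := exists_bound (fun t => (f t).S + 2 * Rp n t (f t).K (f t).S) s (Rw n)
  obtain ⟨W1, v, hW1, hW1n, hW1s, hv1, hv2⟩ := stations hT k0 a
    (fun i k => ∑ j ∈ range a, bZ ^ j * emb (dg n i j) k) (8 * 3 ^ a) (hW s).1 hV1 (hW s).2.1
    (hW s).2.2 hV2 ((bN ^ n) ^ a)
  obtain ⟨B, hB1, hB2⟩ := exists_bound (fun i => (l1 (v i) : ℤ)) ((bN ^ n) ^ a) (Bd n)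
  obtain ⟨K, hK1, hK2, hK3⟩ : ∃ K : ℕ, a + 3 ≤ K ∧ kst n ≤ K ∧ B ≤ 3 ^ (K - 2) := by
    refine ⟨B.toNat + a + kst n + 3, by omega, by omega, ?_⟩
    have h3 : B.toNat + a + kst n + 3 - 2 < 3 ^ (B.toNat + a + kst n + 3 - 2) :=
      Nat.lt_pow_self (by norm_num)
    have h4 : ((B.toNat + a + kst n + 3 - 2 : ℕ) : ℤ) < 3 ^ (B.toNat + a + kst n + 3 - 2) := by
      exact_mod_cast h3
    omega
  obtain ⟨W2, hW2, hW2n, hW2s, hdec⟩ := decide_all
    (range s ×ˢ (finite_nb (n := n) (Rp n s K S)).toFinset)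
    (fun r => {x : X | r.2 +ᵥ x ∈ (f r.1).U})
    (fun r hr => open_pre (h1 r.1 (mem_range.1 (mem_product.1 hr).1)).oU r.2) hW1 hW1n
  obtain ⟨u, -, hu, x, hx, hux⟩ := far_return hT k0 0 0 hW2 hV1 hW2n
    (hW2s.trans (hW1s.trans (hW s).2.2)) hV2 (rho n K + 1)
  obtain ⟨U1, V1, a1, a2, a3, a4, a5⟩ := sep_nhds (finite_nb (n := n) (rho n K)).toFinset x (u +ᵥ x)
    (fun w hw => by
      rw [← add_vadd]
      refine hf _ _ fun h3 => ?_
      have h4 := (Set.Finite.mem_toFinset _).1 hw k0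
      have h5 := congrFun h3 k0
      simp only [Pi.add_apply, Pi.zero_apply] at h5
      rw [abs_le] at h4
      omega)
  obtain ⟨U2, V2, b1, b2, b3, b4, b5⟩ := sep_nhds
    ((finite_nb (n := n) (2 * Rp n s K S)).toFinset.erase 0) x x
    (fun w hw => hf _ _ (ne_of_mem_erase hw))
  obtain ⟨U, hU⟩ : ∃ U, U = W2 ∩ U1 ∩ (U2 ∩ V2) ∩ {y : X | u +ᵥ y ∈ V0 ∩ V1} := ⟨_, rfl⟩
  have c1 : ∀ y ∈ U, ((y ∈ W2 ∧ y ∈ U1) ∧ y ∈ U2 ∧ y ∈ V2) ∧ u +ᵥ y ∈ V0 ∩ V1 :=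
    fun y hy => by rw [hU] at hy; exact hy
  refine ⟨⟨U, V0 \ closure {y | ∃ w : Z n, nb w (rho n K) ∧ w +ᵥ y ∈ U}, x, K, a, S, v⟩,
    ⟨hU ▸ ((hW2.inter a1).inter (b1.inter b2)).inter (open_pre (hV1.inter a2) u),
    hV1.sdiff isClosed_closure, hU ▸ ⟨⟨⟨hx, a3⟩, b3, b4⟩, hux, a4⟩,
    den_step hV2 a2 (fun y hy w hw hU => a5 w ((Set.Finite.mem_toFinset _).2 hw) y hy
      (c1 _ hU).1.1.2) fun y hy => (c1 y hy).2,
    fun y hy => hW1s (hW2s (c1 y hy).1.1.1), hS1, ha1, hK1,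
    hK2, hB1.trans hK3, fun y hy w hw hw' hU => ?_,
    fun y hy w hw hU => hy.2 (subset_closure ⟨w, hw, hU⟩), fun i hi k => ?_, hv2,
    fun i hi j hj k => ?_⟩, fun t ht => ⟨hS2 t ht, ha2 t ht, fun y hy => hV3 t ht hy.1,
      fun y hy w hw => ?_, fun i hi => hV3 t ht ((hv1 i hi).2 x (hW2s hx))⟩⟩
  · exact b5 w (mem_erase.2 ⟨hw, (Set.Finite.mem_toFinset _).2 hw'⟩) y (c1 y hy).1.2.2
      (c1 _ hU).1.2.1
  · have h3 := hB2 i hi
    have h4 : (v i k).natAbs ≤ l1 (v i) :=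
      Finset.single_le_sum (f := fun k => (v i k).natAbs) (fun _ _ => Nat.zero_le _) (mem_univ k)
    show |v i k| ≤ 3 ^ (K - 2)
    rw [Int.abs_eq_natAbs]; omega
  · exact base_digits a _ (fun j => emb (dg n i j) k) (fun j => emb_bound _ _) ((hv1 i hi).1 k) j hj
  · exact hdec (t, w) (mem_product.2 ⟨mem_range.2 ht, (Set.Finite.mem_toFinset _).2 hw⟩) y
      (c1 y hy).1.1.1 x hx

lemma exists_base [SecondCountableTopology X] (hΩ : IsOpen Ω) (hn : Ω.Nonempty) :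
    ∃ W : ℕ → Set X, (∀ s, IsOpen (W s) ∧ (W s).Nonempty ∧ W s ⊆ Ω) ∧
      ∀ O : Set X, IsOpen O → O.Nonempty → O ⊆ Ω → ∃ s, W s ⊆ O := by
  classical
  obtain ⟨b, hb1, hb2, hb3⟩ := TopologicalSpace.exists_countable_basis X
  obtain ⟨W, rfl⟩ := hb1.exists_eq_range (by
    obtain ⟨t, ht, -⟩ := hb3.exists_subset_of_mem_open hn.choose_spec hΩ
    exact ⟨t, ht⟩)
  refine ⟨fun s => if W s ⊆ Ω then W s else Ω, fun s => ?_, fun O hO ⟨x, hx⟩ hs => ?_⟩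
  · beta_reduce
    split_ifs with h
    · exact ⟨hb3.isOpen ⟨s, rfl⟩, Set.nonempty_iff_ne_empty.2 fun h => hb2 ⟨s, h⟩, h⟩
    · exact ⟨hΩ, hn, le_rfl⟩
  · obtain ⟨_, ⟨s, rfl⟩, -, h⟩ := hb3.exists_subset_of_mem_open hx hO
    exact ⟨s, by simp only [if_pos (h.trans hs)]; exact h⟩

theorem main_solved [PolishSpace X] [Nontrivial (Fin n)] (hΩ : IsOpen Ω) (hT : LT n Ω)
    (hf : IsFree n X) (k0 : Fin n) : ∃ F : X → Lab n, (∀ l, BaireMeasurableSet (F ⁻¹' {l})) ∧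
      ∀ᶠ y in residual X, y ∈ Ω → Rule k0 fun v => F (v +ᵥ y) := by
  classical
  rcases Ω.eq_empty_or_nonempty with rfl | hΩn
  · refine ⟨fun _ => default, fun l => ?_, Eventually.of_forall fun _ h => h.elim⟩
    exact (isOpen_const (p := default = l)).baireMeasurableSet
  obtain ⟨W, hW, hWb⟩ := exists_base hΩ hΩn
  have : Inhabited (Stage n X) := ⟨⟨∅, ∅, hΩn.choose, 0, 0, 0, fun _ => 0⟩⟩
  obtain ⟨f, hs, hp⟩ := exists_seq (StSelf k0 Ω W) StPair (exists_stage hT hf k0 hW)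
  let p : Plan n := ⟨fun s => (f s).K, fun s => (f s).a, fun s => (f s).S, fun s => (f s).v,
    fun s t => {w | w +ᵥ (f s).x ∈ (f t).U}⟩
  have hsep : ∀ t (x : X) (w w' : Z n), w +ᵥ x ∈ (f t).U → w' +ᵥ x ∈ (f t).U →
      nb (w - w') (2 * Rp n t (f t).K (f t).S) → w = w' := by
    intro t x w w' h1 h2 h3
    by_contra h4
    exact (hs t).sep _ h2 _ (sub_ne_zero.2 h4) h3 (by rwa [← add_vadd, sub_add_cancel])
  have hOK : p.OK k0 := by
    refine ⟨⟨fun t => (hs t).s0, fun t s h => (hp t s h).ss, fun t s h => ?_⟩,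
      fun t s h => (hp t s h).aa, fun s => (hs s).a1, fun s => (hs s).aK, fun s => (hs s).kk,
      fun s t w hw w' hw' => hsep t _ w w' hw hw', fun s t w hw t' ht y hy => ?_,
      fun s => (hs s).vin, fun s => (hs s).vgap, fun s => (hs s).vdig,
      fun s t i w ht hi hw h => ?_⟩
    · have := (hp t s h).aa; have := (hs s).aK
      simp only [p]; omega
    · have := (hp t' t ht).dec _ hw y hy
      rw [← add_vadd, add_comm y w] at this
      exact this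
    · exact (hs t).avoid _ ((hp t s ht).st i hi) _ h.comm (by rwa [← add_vadd, sub_add_cancel])
  let Occ : X → ℕ → Z n → Prop := fun x s w => w +ᵥ x ∈ (f s).U ∧ nb w (3 ^ ((f s).K - 2))
  let F : X → Lab n := fun x =>
    if h : ∃ r : ℕ × Z n, Occ x r.1 r.2 then p.zz k0 h.choose.1 (-h.choose.2) else default
  have key : ∀ x s w t w', Occ x s w → Occ x t w' → t ≤ s → p.zz k0 s (-w) = p.zz k0 t (-w') := by
    intro x s w t w' h1 h2 ht
    have h3 : (3:ℤ) ^ ((f t).K - 2) ≤ 3 ^ (f s).K := pow_le_pow_right₀ (by norm_num) (by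
      rcases ht.lt_or_eq with h4 | h4
      · have := hOK.pr.kk _ _ h4; simp only [p] at this; omega
      · rw [h4]; omega)
    have h4 : (3:ℤ) ^ ((f s).K - 2) ≤ 3 ^ (f s).K := pow_le_pow_right₀ (by norm_num) (by omega)
    have h5 : nb (w' - w) (Rp n s (f s).K (f s).S) := (h2.2.sub h1.2).mono (by
      have := rho_pos n (f s).K
      have := hOK.pr.rho_le s
      simp only [p] at this; omega)
    rcases ht.lt_or_eq with ht | rfl
    · have h6 := ((hp t s ht).dec _ h1.1 _ h5).1 (by rw [← add_vadd, sub_add_cancel]; exact h2.1)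
      rw [← hOK.zz_copy ht h6 h2.2.neg]
      congr 1; abel
    · have := hOK.pr.Rpos t
      rw [hsep t x w' w h2.1 h1.1 (h5.mono (by simp only [p] at this; omega))]
  have hF : ∀ x s w, Occ x s w → F x = p.zz k0 s (-w) := by
    intro x s w h1
    have hex : ∃ r : ℕ × Z n, Occ x r.1 r.2 := ⟨(s, w), h1⟩
    simp only [F]
    rw [dif_pos hex]
    rcases le_total s hex.choose.1 with h2 | h2
    · exact key x _ _ _ _ hex.choose_spec h1 h2
    · exact (key x _ _ _ _ h1 hex.choose_spec h2).symm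
  let G : Set X := {x | ∃ (s : ℕ) (w : Z n), w +ᵥ x ∈ (f s).U ∧ nb w (3 ^ ((f s).K - 2) - Bd n)}
  have hopen : ∀ Q : ℕ → Z n → Prop,
      IsOpen {x : X | ∃ (s : ℕ) (w : Z n), w +ᵥ x ∈ (f s).U ∧ Q s w} := by
    intro Q
    simp only [Set.ofPred_exists]
    refine isOpen_iUnion fun s => isOpen_iUnion fun w => ?_
    by_cases hQ : Q s w
    · simp only [hQ, and_true]; exact open_pre (hs s).oU w
    · simp [hQ]
  have hG : G ∪ (closure Ω)ᶜ ∈ residual X := by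
    refine residual_of_dense_open ((hopen _).union isClosed_closure.isOpen_compl)
      (dense_iff_inter_open.2 fun O hO ⟨x, hx⟩ => ?_)
    by_cases hc : x ∈ closure Ω
    · obtain ⟨s, h1⟩ := hWb _ (hO.inter hΩ) (mem_closure_iff.1 hc O hO hx) Set.inter_subset_right
      exact ⟨(f s).x, (h1 ((hs s).UW (hs s).xU)).1, Or.inl ⟨s, 0, by
        rw [zero_vadd]; exact (hs s).xU, nb_zero (by have := (hs s).bd; omega)⟩⟩
    · exact ⟨x, hx, Or.inr hc⟩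
  refine ⟨F, fun l => ?_, ?_⟩
  · have h1 := (hopen fun s w => nb w (3 ^ ((f s).K - 2)) ∧ p.zz k0 s (-w) = l).baireMeasurableSet
    have h2 := (hopen fun s w => nb w (3 ^ ((f s).K - 2))).baireMeasurableSet.compl
    have h3 : ∀ x, ¬ (∃ s w, Occ x s w) → F x = default := fun x hx =>
      dif_neg fun ⟨r, hr⟩ => hx ⟨_, _, hr⟩
    have h4 : ∀ x, (∃ s w, Occ x s w) → (F x = l ↔ ∃ (s : ℕ) (w : Z n), w +ᵥ x ∈ (f s).U ∧
        nb w (3 ^ ((f s).K - 2)) ∧ p.zz k0 s (-w) = l) := fun x ⟨s, w, hx⟩ =>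
      ⟨fun h => ⟨s, w, hx.1, hx.2, (hF x s w hx).symm.trans h⟩,
        fun ⟨s', w', a1, a2, a3⟩ => (hF x s' w' ⟨a1, a2⟩).trans a3⟩
    by_cases hl : default = l
    · refine (h1.union h2).congr (Eventually.of_forall fun x => propext ?_)
      by_cases hx : ∃ s w, Occ x s w
      · exact ⟨fun h => (h4 x hx).2 (h.resolve_right fun h5 => h5 hx),
          fun h => Or.inl ((h4 x hx).1 h)⟩
      · exact ⟨fun _ => (h3 x hx).trans hl, fun _ => Or.inr hx⟩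
    · refine h1.congr (Eventually.of_forall fun x => propext ?_)
      by_cases hx : ∃ s w, Occ x s w
      · exact (h4 x hx).symm
      · exact ⟨fun ⟨s, w, a1, a2, _⟩ => (hx ⟨s, w, a1, a2⟩).elim,
          fun h => (hl ((h3 x hx).symm.trans h)).elim⟩
  · filter_upwards [hG] with y hy hyΩ
    obtain ⟨s, w, h1, h2⟩ := hy.resolve_right fun h => h (subset_closure hyΩ)
    refine (hOK.zz_rule (s := s) h2.neg).local fun v hv => ?_
    rw [hF (v +ᵥ y) s (w - v) ⟨by rwa [← add_vadd, sub_add_cancel], by simpa using h2.sub hv⟩]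
    congr 1; abel

lemma castv_eq {M : ℕ} {v w : Z n} : castv M v = castv M w ↔ ∀ k, (M : ℤ) ∣ w k - v k :=
  funext_iff.trans (forall_congr' fun _ => ZMod.intCast_eq_intCast_iff_dvd_sub _ _ _)

lemma reduce {a : ℕ} {r : Z n} {U : Set X} (hU : IsOpen U) (hUn : U.Nonempty)
    (h : ∀ v : Z n, (∀ k, bZ ^ a ∣ v k - r k) → ∀ x ∈ U, v +ᵥ x ∉ U) :
    ∃ V ⊆ U, IsOpen V ∧ V.Nonempty ∧ ∃ Γ : AddSubgroup (Z n), Γ.index.Prime ∧ Γ.index ∣ bN ∧
      ∀ v : Z n, ∀ x ∈ V, v +ᵥ x ∈ V → v ∈ Γ := by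
  have : NeZero (bN ^ a) := ⟨pow_ne_zero _ bN_pos.ne'⟩
  let f : X → Set (Fin n → ZMod (bN ^ a)) := fun x => {ρ | ∃ v : Z n, castv _ v = ρ ∧ v +ᵥ x ∈ U}
  obtain ⟨_, ⟨x0, hx0, rfl⟩, hmax⟩ := wellFounded_gt.has_min (f '' U) (hUn.image f)
  have hop : IsOpen {x | f x0 ⊆ f x} := by
    have : {x | f x0 ⊆ f x} = ⋂ ρ ∈ f x0, ⋃ v : Z n, ⋃ _ : castv _ v = ρ, {x | v +ᵥ x ∈ U} := by
      ext x
      simp [f, Set.subset_def]
    rw [this]
    exact (Set.toFinite _).isOpen_biInter fun ρ _ =>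
      isOpen_iUnion fun v => isOpen_iUnion fun _ => open_pre hU v
  have hc : ∀ x ∈ U ∩ {x | f x0 ⊆ f x}, f x = f x0 := fun x hx =>
    (eq_of_le_of_not_lt hx.2 (hmax _ ⟨x, hx.1, rfl⟩)).symm
  let φ : Z n →+ (Fin n → ZMod (bN ^ a)) := AddMonoidHom.mk' (castv _) (castv_add _)
  have hφ : Function.Surjective φ := fun ρ =>
    ⟨fun k => ((ρ k).val : ℤ), funext fun k => by simp [φ, castv]⟩
  let H : AddSubgroup (Fin n → ZMod (bN ^ a)) :=
    { carrier := {w | ∀ ρ, ρ ∈ f x0 ↔ ρ + w ∈ f x0}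
      zero_mem' := fun ρ => by rw [add_zero]
      add_mem' := fun h1 h2 ρ => by rw [h1, h2, add_assoc]
      neg_mem' := fun {w} h1 ρ => by rw [h1 (ρ + -w), neg_add_cancel_right] }
  have hH : H ≠ ⊤ := fun h1 => by
    have h2 : castv (bN ^ a) r ∈ H := h1 ▸ AddSubgroup.mem_top _
    obtain ⟨v, h3, h4⟩ := (h2 (castv _ 0)).1 ⟨0, rfl, by rwa [zero_vadd]⟩
    rw [← castv_add, zero_add] at h3
    exact h v (fun k => by simpa [bZ_eq] using castv_eq.1 h3.symm k) x0 hx0 h4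
  obtain ⟨K, h1, h2⟩ := exists_prime_index _ H rfl AddSubgroup.index_ne_zero_of_finite hH
  have h3 := K.index_comap_of_surjective hφ
  refine ⟨U ∩ {x | f x0 ⊆ f x}, Set.inter_subset_left, hU.inter hop, ⟨x0, hx0, Set.Subset.refl (f x0)⟩,
    K.comap φ, h3 ▸ h2, ?_, fun v x hx hv => h1 fun ρ => ?_⟩
  · have h4 := K.index_dvd_card
    rw [Nat.card_fun, Nat.card_zmod] at h4
    rw [h3]
    exact h2.dvd_of_dvd_pow (h2.dvd_of_dvd_pow h4)
  · rw [← hc _ hv]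
    conv_rhs => rw [hc _ hv, ← hc _ hx]
    constructor
    · rintro ⟨w, rfl, hw⟩
      exact ⟨w + v, castv_add _ _ _, by rwa [add_vadd]⟩
    · rintro ⟨w, h4, hw⟩
      refine ⟨w - v, ?_, by rwa [← add_vadd, sub_add_cancel]⟩
      have := castv_add (bN ^ a) (w - v) v
      rw [sub_add_cancel, h4] at this
      exact (add_right_cancel this).symm

/-- The open set `V` returns to itself only along another subgroup of small prime index. -/
def Oth (Γ : AddSubgroup (Z n)) (m : ℕ) (V : Set X) : Prop :=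
  ∃ Γ' : AddSubgroup (Z n), Γ' ≠ Γ ∧ Γ'.index.Prime ∧ Γ'.index ≤ m ∧
    ∀ v : Z n, ∀ x ∈ V, v +ᵥ x ∈ V → v ∈ Γ'

lemma per_solved (Γ : AddSubgroup (Z n)) {m : ℕ} (hm : ∀ q, q.Prime → q ≤ m → q ∣ bN)
    {W : ℕ → Set X} (hW : ∀ s, IsOpen (W s)) :
    ∃ F : X → Set (Fin n → ZMod bN), (∀ l, BaireMeasurableSet (F ⁻¹' {l})) ∧
      ∀ y, (∃ s, Oth Γ m (W s) ∧ ∃ v : Z n, v +ᵥ y ∈ W s) → PRule Γ m fun v => F (v +ᵥ y) := by
  classical
  let A : ℕ → X → Prop := fun s y => Oth Γ m (W s) ∧ ∃ v : Z n, v +ᵥ y ∈ W s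
  have hA : ∀ s (w : Z n) y, A s (w +ᵥ y) ↔ A s y := fun s w y => and_congr_right fun _ =>
    ⟨fun ⟨v, hv⟩ => ⟨v + w, by rwa [add_vadd]⟩,
      fun ⟨v, hv⟩ => ⟨v - w, by rwa [← add_vadd, sub_add_cancel]⟩⟩
  refine ⟨fun y => {ρ | ∃ s, (A s y ∧ ∀ t, t < s → ¬ A t y) ∧
    ∃ v : Z n, castv bN v = ρ ∧ v +ᵥ y ∈ W s}, fun l => ?_, fun y hy => ?_⟩
  · borelize X
    have h1 : ∀ s (v : Z n), Measurable fun y : X => v +ᵥ y ∈ W s := fun s v =>
      measurableSet_setOfPred.1 (open_pre (hW s) v).measurableSet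
    have h2 : ∀ s, Measurable (A s) := fun s => measurable_const.and (Measurable.exists (h1 s))
    refine MeasurableSet.baireMeasurableSet (measurableSet_setOfPred.2 ?_)
    simp only [Set.mem_singleton_iff, Set.ext_iff]
    exact Measurable.forall fun ρ => Measurable.iff (Measurable.exists fun s =>
      ((h2 s).and (Measurable.forall fun t => measurable_const.imp (h2 t).not)).and
        (Measurable.exists fun v => measurable_const.and (h1 s v))) measurable_const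
  · have h1 : A (Nat.find hy) y := Nat.find_spec hy
    have h2 : ∀ s, (A s y ∧ ∀ t, t < s → ¬ A t y) ↔ s = Nat.find hy := fun s =>
      ⟨fun h => ((Nat.find_eq_iff hy).2 h).symm, fun h => h ▸ ⟨h1, fun t => Nat.find_min hy⟩⟩
    obtain ⟨⟨Γ', g1, g2, g3, g4⟩, v0, hv0⟩ := h1
    simp only [PRule, hA, h2, Set.mem_ofPred_eq, exists_eq_left, zero_vadd, ← add_vadd]
    have h3 : ∀ v v' : Z n, castv bN v' = castv bN v → v - v' ∈ Γ' := fun v v' h => by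
      choose t ht using fun k => (Int.natCast_dvd_natCast.2 (hm _ g2 g3)).trans (castv_eq.1 h k)
      have h4 : v - v' = Γ'.index • t := funext fun k => by simpa using ht k
      rw [h4]
      exact Γ'.nsmul_index_mem t
    refine ⟨⟨v0, v0, rfl, hv0⟩, ⟨Γ', g1, g2, g3, ?_⟩, fun i ρ => ⟨?_, ?_⟩⟩
    · rintro v w ⟨v', a1, a2⟩ ⟨w', b1, b2⟩
      have := Γ'.sub_mem (Γ'.add_mem (h3 _ _ a1)
        (g4 (v' - w') _ b2 (by rwa [← add_vadd, sub_add_cancel]))) (h3 _ _ b1)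
      rwa [sub_add_sub_cancel, sub_sub_sub_cancel_right] at this
    · rintro ⟨w, rfl, hw⟩
      exact ⟨w + e i, castv_add _ _ _, hw⟩
    · rintro ⟨w, h4, hw⟩
      refine ⟨w - e i, ?_, by rwa [sub_add_cancel]⟩
      have := castv_add bN (w - e i) (e i)
      rw [sub_add_cancel, h4] at this
      exact (add_right_cancel this).symm

theorem solved [PolishSpace X] [Nontrivial (Fin n)] (hf : IsFree n X) (k0 : Fin n)
    (Γ : AddSubgroup (Z n)) {m : ℕ} (hm : ∀ q, q.Prime → (q ≤ m ↔ q ∣ bN))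
    (h : ∀ U : Set X, IsOpen U → U.Nonempty → (∀ v : Z n, ∀ x ∈ U, v +ᵥ x ∈ U → v ∈ Γ) →
      ∃ V ⊆ U, IsOpen V ∧ V.Nonempty ∧ Oth Γ m V) : HasBaireLabelling (cLCL k0 Γ m) X := by
  rcases isEmpty_or_nonempty X with hX | hX
  · exact ⟨fun x => hX.elim x, fun l => by
      rw [Set.eq_empty_of_isEmpty (_ ⁻¹' _)]; exact isOpen_empty.baireMeasurableSet,
      Set.univ, univ_mem, fun _ _ _ => trivial, fun y => hX.elim y⟩
  obtain ⟨W, hW, hWb⟩ := exists_base (Ω := (Set.univ : Set X)) isOpen_univ Set.univ_nonempty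
  let A : Set X := {y | ∃ s, Oth Γ m (W s) ∧ ∃ v : Z n, v +ᵥ y ∈ W s}
  have hAo : IsOpen A := by
    have : A = ⋃ s, ⋃ _ : Oth Γ m (W s), ⋃ v : Z n, {y | v +ᵥ y ∈ W s} := by
      ext y
      simp [A]
    rw [this]
    exact isOpen_iUnion fun s => isOpen_iUnion fun _ => isOpen_iUnion fun v => open_pre (hW s).1 v
  have hAi : ∀ (w : Z n) y, y ∈ closure A → w +ᵥ y ∈ closure A := fun w y hy =>
    map_mem_closure (continuous_const_vadd w) hy fun y ⟨s, h1, v, hv⟩ =>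
      ⟨s, h1, v - w, by rwa [← add_vadd, sub_add_cancel]⟩
  have hno : ∀ V : Set X, IsOpen V → V.Nonempty → V ⊆ (closure A)ᶜ → ¬ Oth Γ m V := by
    rintro V h1 h2 h3 ⟨Γ', g1, g2, g3, g4⟩
    obtain ⟨s, hs⟩ := hWb V h1 h2 (Set.subset_univ _)
    obtain ⟨x, hx⟩ := (hW s).2.1
    exact h3 (hs hx) (subset_closure ⟨s, ⟨Γ', g1, g2, g3, fun v y a b => g4 v y (hs a) (hs b)⟩, 0,
      by rwa [zero_vadd]⟩)
  have hT : LT n (closure A)ᶜ := by
    intro a r U h1 h2 h3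
    by_contra hn
    push Not at hn
    obtain ⟨V, a1, a2, a3, Γ', a4, a5, a6⟩ := reduce h1 h2 hn
    by_cases hΓ : Γ' = Γ
    · obtain ⟨V', b1, b2, b3, b4⟩ := h V a2 a3 (hΓ ▸ a6)
      exact hno V' b2 b3 (b1.trans (a1.trans h3)) b4
    · exact hno V a2 a3 (a1.trans h3) ⟨Γ', hΓ, a4, (hm _ a4).2 a5, a6⟩
  obtain ⟨F, hF1, hF2⟩ := main_solved isClosed_closure.isOpen_compl hT hf k0
  obtain ⟨F', hF3, hF4⟩ := per_solved Γ (fun q h1 h2 => (hm q h1).1 h2) fun s => (hW s).1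
  have hG : ∀ᶠ y in residual X, CRule k0 Γ m fun v =>
      (v +ᵥ y ∉ closure A, F (v +ᵥ y), F' (v +ᵥ y)) := by
    have h1 : A ∪ (closure A)ᶜ ∈ residual X :=
      residual_of_dense_open (hAo.union isClosed_closure.isOpen_compl)
        (dense_iff_inter_open.2 fun O hO ⟨x, hx⟩ => by
          by_cases hc : x ∈ closure A
          · obtain ⟨y, h1, h2⟩ := mem_closure_iff.1 hc O hO hx
            exact ⟨y, h1, Or.inl h2⟩
          · exact ⟨x, hx, Or.inr hc⟩)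
    filter_upwards [h1, hF2] with y h2 h3
    simp only [CRule, zero_vadd]
    refine ⟨fun i => not_congr ⟨fun h4 => ?_, hAi _ _⟩, h3, fun h4 => hF4 y (h2.resolve_right h4)⟩
    simpa [← add_vadd] using hAi (-e i) _ h4
  refine ⟨fun y => (y ∉ closure A, F y, F' y), fun l => ?_, {y | ∀ w : Z n, CRule k0 Γ m fun v =>
    (v +ᵥ (w +ᵥ y) ∉ closure A, F (v +ᵥ (w +ᵥ y)), F' (v +ᵥ (w +ᵥ y)))}, ?_, fun v y hy w => ?_,
    fun y hy => ?_⟩
  · obtain ⟨l1, l2, l3⟩ := l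
    have h1 : BaireMeasurableSet {y | (y ∉ closure A) = l1} := by
      by_cases h2 : l1
      · simp only [h2, eq_iff_iff, iff_true]
        exact isClosed_closure.isOpen_compl.baireMeasurableSet
      · simpa [h2] using isClosed_closure.isOpen_compl.baireMeasurableSet.of_compl
    refine (h1.inter ((hF1 l2).inter (hF3 l3))).congr (Eventually.of_forall fun y => propext ?_)
    exact ⟨fun h => Prod.ext h.1 (Prod.ext h.2.1 h.2.2), fun h =>
      ⟨congrArg Prod.fst h, congrArg (fun l : CL n => l.2.1) h, congrArg (fun l : CL n => l.2.2) h⟩⟩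
  · exact eventually_countable_forall.2 fun v =>
      (tendsto_residual_of_isOpenMap (continuous_const_vadd v) (isOpenMap_vadd v)).eventually hG
  · rw [← add_vadd w]; exact hy _
  · have := hy 0
    simp only [zero_vadd] at this
    exact (cLCL_iff k0 Γ m fun v => (v +ᵥ y ∉ closure A, F (v +ᵥ y), F' (v +ᵥ y))).2 this

end Pool.Agent.MP_c4ca5b_lc.B
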