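import Pool.Agent.MP_c4ca5b_lc.Per.Base

/-! The labelling problem in an arbitrary base: soundness and gluing of finite pieces. -/

set_option linter.unusedSectionVars false

namespace Pool.Agent.MP_c4ca5b_lc.B

open Finset

variable [Bs] {n : ℕ}

structure Lab (n : ℕ) : Type where
  pb : Fin n → ZMod (N0 n)
  off : Bx n
  mp : Mk n (Lam n) × Pay n (Lam n)

instance : Finite (Lab n) :=
  Finite.of_injective (fun m : Lab n => (m.pb, m.off, m.mp)) (by
    rintro ⟨⟩ ⟨⟩ h; simp only [Prod.mk.injEq] at h; simp only [Lab.mk.injEq]; exact h)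

instance : Inhabited (Lab n) := ⟨⟨0, default, default⟩⟩

def cong (l l' : Lab n) (c : Z n) : Prop := ∀ k, l'.pb k - l.pb k = (c k : ZMod (N0 n))

lemma cong_unique {l l' : Lab n} {c c' : Z n} (h : cong l l' c) (h' : cong l l' c')
    (hb : nb (c - c') (n * Rw n + n + 5)) : c = c' := by
  funext k
  have h1 : ((c k - c' k : ℤ) : ZMod (N0 n)) = 0 := by push_cast; rw [← h k, ← h' k]; ring
  rw [ZMod.intCast_zmod_eq_zero_iff_dvd] at h1
  have h2 := hb k
  have h3 := N0_gt n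
  have := Int.eq_zero_of_abs_lt_dvd h1 (by simp only [Pi.sub_apply] at h2; omega)
  omega

def wit (l : Lab n) : Prop := l.mp.1.lam.st ∧ l.off.1 = 0

structure Rule (k0 : Fin n) (z : Z n → Lab n) : Prop where
  r1 : ∀ i, ∃ t, nb t 1 ∧ cong (z 0) (z (e i)) t
  r2 : ∀ i, ∃ t, nb t 1 ∧ cong (z 0) (z (Mc n • e i)) (((n : ℤ) + 1) • e i + t)
  r3p : ∀ k, ∃ y, nb y (Rw n) ∧ cong (z 0) (z y) (e k)
  r3m : ∀ k, ∃ y, nb y (Rw n) ∧ cong (z 0) (z y) (-e k)
  p1 : ∀ y, nb y (Rw n) → cong (z 0) (z y) 0 →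
    (z y).mp = (z 0).mp ∧ y + (z y).off.1 = (z 0).off.1
  p2 : ∀ y k, nb y (Rw n) → cong (z 0) (z y) (e k) →
    (sys k0).Rel k (z 0).mp.1 (z y).mp.1 ∧ (z 0).mp.2.fp k = (z y).mp.2.fm k ∧
    (¬ (z 0).mp.1.lam.Fp k → ¬ (z y).mp.1.lam.Fm k →
      ((z 0).mp.1.lam.inc k).1 = y + (z y).off.1 - (z 0).off.1)
  p3 : (sys k0).K0 (z 0).mp.2 ∧ (∀ k, (sys k0).Chk k (z 0).mp.1 ((z 0).mp.2.fp k)) ∧
    ¬ (z 0).mp.1.lam.hi ∧ ((z 0).mp.1.lam.cin ↔ (z 0).mp.1.lam.W)
  p4 : (z 0).mp.1.lam.st → wit (z (z 0).off.1)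

lemma Rule.local {k0 : Fin n} {z z' : Z n → Lab n} (h : Rule k0 z)
    (hz : ∀ y, nb y (Bd n) → z' y = z y) : Rule k0 z' := by
  have h0 : z' 0 = z 0 := hz 0 (nb_zero (Bd_pos n))
  have hR : ∀ y, nb y (Rw n) → z' y = z y := fun y hy => hz y (hy.mono (Bd_ge n))
  constructor
  · intro i
    rw [h0, hR _ ((nb_e i).mono (by have := Rw_pos n; omega))]; exact h.r1 i
  · intro i
    rw [h0, hR _ ((nb_Mc i).mono (Mc_le_Rw n))]; exact h.r2 i
  · intro k
    obtain ⟨y, h1, h2⟩ := h.r3p k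
    exact ⟨y, h1, by rw [h0, hR y h1]; exact h2⟩
  · intro k
    obtain ⟨y, h1, h2⟩ := h.r3m k
    exact ⟨y, h1, by rw [h0, hR y h1]; exact h2⟩
  · intro y hy
    rw [h0, hR y hy]; exact h.p1 y hy
  · intro y k hy
    rw [h0, hR y hy]; exact h.p2 y k hy
  · rw [h0]; exact h.p3
  · rw [h0, hz _ (z 0).off.2]; exact h.p4

def mainLCL (k0 : Fin n) : LCL n where
  Label := Lab n
  finite_label := inferInstance
  radius := (Bd n).toNat
  allowed := {p | ∃ z, Rule k0 z ∧ ∀ v, p v = z v.1}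

lemma mainLCL_iff (k0 : Fin n) (z : Z n → Lab n) :
    (fun v : {v : Fin n → ℤ // ∀ i, |v i| ≤ ((mainLCL k0).radius : ℤ)} => z v.1) ∈
      (mainLCL k0).allowed ↔ Rule k0 z := by
  refine ⟨fun ⟨z', h1, h2⟩ => h1.local fun y hy => ?_, fun h => ⟨z, h, fun _ => rfl⟩⟩
  exact h2 ⟨y, fun i => by
    have := hy i; have := Bd_pos n
    show |y i| ≤ ((Bd n).toNat : ℤ); omega⟩

/-- the `q`-adic neighbourhood filter of `0` -/
def tw (n : ℕ) (q : ℕ) : Filter (Z n) where
  sets := {S | ∃ b : ℕ, ∀ v : Z n, ((q:ℤ) ^ b) • v ∈ S}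
  univ_sets := ⟨0, fun _ => trivial⟩
  sets_of_superset := fun ⟨b, hb⟩ h => ⟨b, fun v => h (hb v)⟩
  inter_sets := fun ⟨b, hb⟩ ⟨b', hb'⟩ => ⟨b + b', fun v =>
    ⟨by rw [pow_add, mul_smul]; exact hb _, by rw [pow_add, mul_comm, mul_smul]; exact hb' _⟩⟩

section NoToeplitz

variable {k0 : Fin n} {z : Z n → Lab n}

lemma exists_psi (hz : ∀ u, Rule k0 (fun v => z (u + v))) :
    ∃ ψ : Z n → Z n, IsGrid ψ ∧ ∀ u u', cong (z u) (z u') (ψ u' - ψ u) := by
  have h1 : ∀ u i, ∃ t, nb t 1 ∧ cong (z u) (z (u + e i)) t := fun u i => by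
    simpa using (hz u).r1 i
  choose g hg1 hg2 using h1
  have hn : (0:ℤ) ≤ n * Rw n := mul_nonneg (by positivity) (by have := Rw_pos n; omega)
  have flat : ∀ i k u, g (u + e k) i - g u i = g (u + e i) k - g u k := by
    intro i k u
    have a1 : cong (z u) (z (u + e k + e i)) (g u k + g (u + e k) i) := fun l => by
      have := hg2 u k l; have := hg2 (u + e k) i l
      simp only [Pi.add_apply]; push_cast; grind
    have a2 : cong (z u) (z (u + e k + e i)) (g u i + g (u + e i) k) := fun l => by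
      have := hg2 u i l; have h3 := hg2 (u + e i) k l
      rw [show u + e i + e k = u + e k + e i by abel] at h3
      simp only [Pi.add_apply]; push_cast; grind
    have := cong_unique a1 a2 ((((hg1 _ _).add (hg1 _ _)).sub ((hg1 _ _).add (hg1 _ _))).mono
      (by omega))
    funext l
    have := congrFun this l
    simp only [Pi.add_apply, Pi.sub_apply] at this ⊢
    linarith
  have h2 : ∀ l, ∃ F : Z n → ℤ, ∀ i u, F (u + e i) - F u = g u i l := fun l =>
    exists_potential (fun i u => g u i l) (fun i k u => congrFun (flat i k u) l)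
  choose F hF using h2
  let ψ : Z n → Z n := fun u l => F l u
  have hc : ∀ u u', cong (z u) (z u') (ψ u' - ψ u) := by
    intro u u'
    refine unit_induction (P := fun u' => cong (z u) (z u') (ψ u' - ψ u)) u ?_ ?_ u'
    · intro l; simp
    · intro w k
      refine forall_congr' fun l => ?_
      have a1 := hg2 w k l
      have a2 : ((F l (w + e k) : ℤ) : ZMod (N0 n)) - (F l w : ℤ) = (g w k l : ℤ) := by
        rw [← hF l k w]; push_cast; ring
      simp only [Pi.sub_apply, ψ]; push_cast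
      constructor <;> intro h <;> grind
  have hlip : ∀ u i k, |ψ (u + e i) k - ψ u k| ≤ 1 := fun u i k => by
    simp only [ψ]; rw [hF]; exact hg1 u i k
  have hlip' : ∀ u y R, nb y R → nb (ψ (u + y) - ψ u) (n * R) := fun u y R hy k =>
    lip_nb (F := fun u => ψ u k) (fun u i => hlip u i k) u y hy
  refine ⟨ψ, ⟨hlip, fun u i k => ?_, fun u k => ?_, fun u k => ?_⟩, hc⟩
  · obtain ⟨t, h1, h2⟩ := (hz u).r2 i
    simp only [add_zero] at h2
    have h3 : nb (((n : ℤ) + 1) • e i) (n + 1) := fun l => by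
      simp only [Pi.smul_apply, smul_eq_mul, e_apply]
      split_ifs
      · rw [mul_one, abs_of_nonneg (by omega)]
      · simp; omega
    have := cong_unique (hc _ _) h2 (((hlip' u _ _ ((nb_Mc i).mono (Mc_le_Rw n))).sub
      (h3.add h1)).mono (by omega))
    have := congrFun this k
    simp only [Pi.sub_apply, Pi.add_apply, Pi.smul_apply, smul_eq_mul] at this
    rw [this, add_sub_cancel_left]; exact h1 k
  · obtain ⟨y, h1, h2⟩ := (hz u).r3p k
    simp only [add_zero] at h2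
    have := cong_unique (hc _ _) h2 (((hlip' u _ _ h1).sub (nb_e k)).mono (by omega))
    exact ⟨y, h1, by rw [← this]; abel⟩
  · obtain ⟨y, h1, h2⟩ := (hz u).r3m k
    simp only [add_zero] at h2
    have := cong_unique (hc _ _) h2 (((hlip' u _ _ h1).sub (nb_e k).neg).mono (by omega))
    exact ⟨y, h1, by rw [← sub_eq_zero, ← add_neg_cancel (e k), ← this]; abel⟩

/-- iterated derived configurations -/
def zs (k0 : Fin n) (ζ : Cfg n (Lam n)) (j : ℕ) : Cfg n (Lam n) := (der k0)^[j] ζ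

def ancA (k0 : Fin n) (ζ : Cfg n (Lam n)) (c : Z n) : ℕ → Z n
  | 0 => c
  | j + 1 => par (ancA k0 ζ c j - offs (zs k0 ζ j))

lemma zs_succ (ζ : Cfg n (Lam n)) (j : ℕ) : zs k0 ζ (j + 1) = der k0 (zs k0 ζ j) :=
  Function.iterate_succ_apply' _ _ _

variable [Nontrivial (Fin n)]

lemma zs_valid {ζ : Cfg n (Lam n)} (h : (sys k0).Valid ζ) (j : ℕ) : (sys k0).Valid (zs k0 ζ j) := by
  induction j with
  | zero => exact h
  | succ j ih => rw [zs_succ]; exact ih.der k0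

lemma standardize {ζ : Cfg n (Lam n)} (h : (sys k0).Valid ζ) (K : ℕ) (E : Z n) :
    ∃ b : ℕ → Z n, b K = E ∧ (sys k0).Pyr K (fun j C => (zs k0 ζ j (C + b j)).1.lam) ∧
      ∀ j, j ≤ K → ∀ c, ancA k0 ζ (c + b 0) j = anc j c + b j := by
  let cor : ℕ → Z n := fun d => Nat.rec E (fun d C => (3:ℤ) • C + offs (zs k0 ζ (K - (d + 1)))) d
  let b : ℕ → Z n := fun j => cor (K - j)
  have hb : ∀ j, j < K → b j = (3:ℤ) • b (j + 1) + offs (zs k0 ζ j) := by
    intro j hj
    simp only [b]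
    rw [show K - j = K - (j + 1) + 1 by omega]
    simp only [cor]
    rw [show K - (K - (j + 1) + 1) = j by omega]
  have hpos : ∀ j C, j < K → (zs k0 ζ j (C + b j)).1.ps = pos C := by
    intro j C hj
    rw [(zs_valid h j).ps_eq, hb j hj,
      show C + ((3:ℤ) • b (j + 1) + offs (zs k0 ζ j)) - offs (zs k0 ζ j) = C + (3:ℤ) • b (j + 1)
        by abel, pos_add_smul]
  have hpar : ∀ j C, j < K → par (C + b j - offs (zs k0 ζ j)) = par C + b (j + 1) := by
    intro j C hj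
    rw [hb j hj,
      show C + ((3:ℤ) • b (j + 1) + offs (zs k0 ζ j)) - offs (zs k0 ζ j) = C + (3:ℤ) • b (j + 1)
        by abel, par_add_smul]
  have hpc : ∀ j C, j < K → (sys k0).PC (zs k0 ζ j (C + b j)).1
      (zs k0 ζ (j + 1) (par C + b (j + 1))).1.lam := by
    intro j C hj
    have := (zs_valid h j).pc k0 (C + b j)
    rwa [hpar j C hj, ← zs_succ] at this
  refine ⟨b, by simp [b, cor], ⟨?_, ?_, ?_, ?_⟩, ?_⟩
  · intro j C _
    exact ((zs_valid h j).rel (C + b j) k0).2.2.1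
  · intro j C hj _ hs
    exact ⟨by rw [← hpos j C hj]; exact ((zs_valid h j).rel (C + b j) k0).2.2.2.1 hs,
      (hpc j C hj).1 hs⟩
  · intro j C hj _ hs
    have := (((zs_valid h j).rel (C + b j) k0).2.2.2.2 hs).1
    rwa [hpos j C hj, (hpc j C hj).2 hs] at this
  · intro j C k hj _ _ hs
    have := (((zs_valid h j).rel (C + b j) k).2.2.2.2 hs).2
    rwa [hpos j C hj, (hpc j C hj).2 hs, show C + b j + e k = C + e k + b j by abel] at this
  · intro j
    induction j with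
    | zero => intro _ c; simp [ancA]
    | succ j ih =>
      intro hj c
      rw [ancA, ih (by omega), hpar j _ (by omega), anc_succ]

lemma lift_all {α : Type} (F : Filter α) {ζ : Cfg n (Lam n)} (h : (sys k0).Valid ζ)
    (τ : α → Z n) (hτ : ∀ c, ∀ᶠ v in F, ζ (c + τ v) = ζ c) (c : Z n) (j : ℕ) :
    ∃ τ' : α → Z n, (∀ C, ∀ᶠ v in F, zs k0 ζ j (C + τ' v) = zs k0 ζ j C) ∧
      ∀ᶠ v in F, ancA k0 ζ (c + τ v) j = ancA k0 ζ c j + τ' v := by
  induction j with
  | zero => exact ⟨τ, hτ, Filter.Eventually.of_forall fun _ => rfl⟩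
  | succ j ih =>
    obtain ⟨τ1, h1, h2⟩ := ih
    obtain ⟨τ2, h3, h4⟩ := (zs_valid h j).lift F k0 τ1 h1
    refine ⟨τ2, by rw [zs_succ]; exact h4, ?_⟩
    filter_upwards [h2, h3] with v h5 h6
    rw [ancA, ancA, h5, h6, ← par_add_smul]
    congr 1; abel

theorem no_toeplitz (hz : ∀ u, Rule k0 (fun v => z (u + v))) {P : ℕ} (hP0 : 0 < P)
    (hPb : (P : ℤ) ∣ bZ) (hbP : ∀ i : ℕ, ¬ bZ ∣ (P : ℤ) ^ i)
    (hT : ∀ w, ∀ᶠ v in tw n P, z (w + v) = z w) : False := by
  obtain ⟨ψ, hψ, hc⟩ := exists_psi hz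
  choose σ hσ using hψ.surj
  let ζ : Cfg n (Lam n) := fun c => (z (σ c)).mp
  let x : Z n → Z n := fun c => σ c + (z (σ c)).off.1
  have hzu : ∀ u, ζ (ψ u) = (z u).mp ∧ x (ψ u) = u + (z u).off.1 := by
    intro u
    have := (hz u).p1 (σ (ψ u) - u) (hψ.fibre (hσ _)) (by
      have := hc u (σ (ψ u))
      rw [hσ, sub_self] at this
      simpa using this)
    simp only [add_sub_cancel, add_zero] at this
    exact ⟨this.1, by rw [← this.2]; simp only [x]; abel⟩
  have hp2 : ∀ c k, (sys k0).Rel k (ζ c).1 (ζ (c + e k)).1 ∧ (ζ c).2.fp k = (ζ (c + e k)).2.fm k ∧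
      (¬ (ζ c).1.lam.Fp k → ¬ (ζ (c + e k)).1.lam.Fm k →
        ((ζ c).1.lam.inc k).1 = x (c + e k) - x c) := by
    intro c k
    obtain ⟨y, h1, h2⟩ := hψ.surp (σ c) k
    have := (hz (σ c)).p2 y k h1 (by
      have := hc (σ c) (σ c + y)
      rw [h2, add_sub_cancel_left] at this
      simpa using this)
    rw [hσ] at h2
    simp only [add_zero] at this
    rw [← h2, (hzu _).1, (hzu _).2]
    refine ⟨this.1, this.2.1, fun a b => ?_⟩
    rw [this.2.2 a b]; simp only [x]; abel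
  have hp3 : ∀ c, (sys k0).K0 (ζ c).2 ∧ (∀ k, (sys k0).Chk k (ζ c).1 ((ζ c).2.fp k)) ∧
      ¬ (ζ c).1.lam.hi ∧ ((ζ c).1.lam.cin ↔ (ζ c).1.lam.W) := fun c => by
    simpa using (hz (σ c)).p3
  have hV : (sys k0).Valid ζ :=
    ⟨fun c => (hp3 c).1, fun c k => (hp2 c k).1, fun c k => (hp2 c k).2.1, fun c => (hp3 c).2.1⟩
  have hB : ∀ (K : ℕ) (b : ℕ → Z n),
      Base K (fun j C => (zs k0 ζ j (C + b j)).1.lam) (fun c => x (c + b 0)) := fun K b =>
    ⟨fun c _ => (hp3 _).2.2, fun c k _ _ => by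
      rw [show c + e k + b 0 = c + b 0 + e k by abel]; exact (hp2 _ k).2.2⟩
  -- a non-witness
  obtain ⟨u1, hu1⟩ : ∃ u1, ¬ (z u1).mp.1.lam.st := by
    obtain ⟨b, -, h1, -⟩ := standardize hV 1 0
    obtain ⟨c, hc⟩ := exists_not_st h1 (hB 1 b)
    exact ⟨_, hc⟩
  obtain ⟨b1, hb1⟩ := hT u1
  -- large cells with holes of bounded level
  obtain ⟨m, hm⟩ : ∃ m : ℕ, ∀ L, ∃ (K : ℕ) (b : ℕ → Z n), L ≤ K ∧
      (sys k0).Pyr K (fun j C => (zs k0 ζ j (C + b j)).1.lam) ∧
      ∀ c, Sub K 0 c → (∀ j, j < m → ¬ (zs k0 ζ j (ancA k0 ζ (c + b 0) j)).1.lam.sp) →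
        Free K (fun j C => (zs k0 ζ j (C + b j)).1.lam) 0 c := by
    by_cases hbd : ∃ m, ∀ K E, (zs k0 ζ K E).1.lam.sp → K < m
    · obtain ⟨m, hm⟩ := hbd
      refine ⟨m, fun L => ?_⟩
      obtain ⟨b, -, h1, h2⟩ := standardize hV L 0
      refine ⟨L, b, le_rfl, h1, fun c _ h3 i hi hT => ?_⟩
      have h4 := hT.1
      simp only [zero_add] at h4
      exact h3 i (hm _ _ h4) (by rw [h2 i (by omega)]; exact h4)
    · push Not at hbd
      refine ⟨b1, fun L => ?_⟩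
      obtain ⟨K, E, h0, hK⟩ := hbd L
      obtain ⟨b, hbK, h1, h2⟩ := standardize hV K E
      obtain ⟨a, h3, h4⟩ := cover h1 (hB K b) (by simpa [hbK] using h0)
      have hab : a < b1 := by
        by_contra hab
        obtain ⟨c, -, h5, h6⟩ := h4 u1
        have h7 := (hz (σ (c + b 0))).p4 (by rw [add_zero]; exact h5)
        simp only [add_zero] at h7
        have h8 : ∀ k, ∃ t, x (c + b 0) k - u1 k = P ^ b1 * t := fun k =>
          (((pow_dvd_pow (P:ℤ) (by omega : b1 ≤ a)).trans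
            (pow_dvd_pow_of_dvd hPb a)).trans (h6 k))
        choose t ht using h8
        have h9 : x (c + b 0) = u1 + ((P:ℤ) ^ b1) • t := by
          funext k; simp only [Pi.add_apply, Pi.smul_apply, smul_eq_mul]; rw [← ht k]; ring
        have h10 : z (u1 + ((P:ℤ) ^ b1) • t) = z u1 := hb1 t
        change wit (z (x (c + b 0))) at h7
        rw [h9, h10] at h7
        exact hu1 h7.1
      refine ⟨K, b, hK, h1, fun c hc h5 => ?_⟩
      by_cases haK : a ≤ K
      · exact h3 c hc fun j hj => by rw [← h2 j (by omega)]; exact h5 j (by omega)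
      · intro i hi hT
        have h4 := hT.1
        simp only [zero_add] at h4
        exact h5 i (by omega) (by rw [h2 i (by omega)]; exact h4)
  -- a base point that is free up to level `m`
  obtain ⟨c0, hc0⟩ : ∃ c0, ∀ j, j < m → ¬ (zs k0 ζ j (ancA k0 ζ c0 j)).1.lam.sp := by
    obtain ⟨b, -, h1, h2⟩ := standardize hV m 0
    refine ⟨0 + b 0, fun j hj => ?_⟩
    rw [h2 j hj.le]
    have : anc j (0 : Z n) = 0 := by funext k; simp [anc]
    rw [this]
    exact (free_zero k0 j).not_sp h1 hj (sub_zero' hj.le)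
  set u0 := σ c0 with hu0
  have hτ : ∀ w, ∀ᶠ v in tw n P, ψ (w + v) - ψ w = ψ (u0 + v) - ψ u0 := by
    refine unit_induction u0 (Filter.Eventually.of_forall fun _ => rfl) fun w k => ?_
    have : ∀ᶠ v in tw n P, ψ (w + e k + v) - ψ (w + e k) = ψ (w + v) - ψ w := by
      filter_upwards [hT w, hT (w + e k)] with v h1 h2
      have a1 := hc (w + v) (w + e k + v)
      rw [h1, h2] at a1
      have a2 : nb (ψ (w + e k + v) - ψ (w + v)) 1 := fun l => by
        rw [show w + e k + v = w + v + e k by abel]; exact hψ.lip _ _ _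
      have a3 : nb (ψ (w + e k) - ψ w) 1 := fun l => hψ.lip _ _ _
      have hn : (0:ℤ) ≤ n * Rw n := mul_nonneg (by positivity) (by have := Rw_pos n; omega)
      have := cong_unique a1 (hc w (w + e k)) ((a2.sub a3).mono (by omega))
      rw [sub_eq_sub_iff_sub_eq_sub]; exact this
    constructor <;> intro h <;> filter_upwards [h, this] with v h1 h2
    · rw [h2, h1]
    · rw [← h2, h1]
  have hτ' : ∀ c, ∀ᶠ v in tw n P, ζ (c + (ψ (u0 + v) - ψ u0)) = ζ c := by
    intro c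
    filter_upwards [hτ (σ c), hT (σ c)] with v h1 h2
    rw [← h1, hσ, add_sub_cancel, (hzu _).1, h2]
  have hfree : ∀ᶠ v in tw n P, ∀ j ∈ Finset.range m,
      ¬ (zs k0 ζ j (ancA k0 ζ (ψ (u0 + v)) j)).1.lam.sp := by
    rw [Filter.eventually_all_finset]
    intro j hj
    obtain ⟨τ', h1, h2⟩ := lift_all (tw n P) hV _ hτ' c0 j
    filter_upwards [h1 (ancA k0 ζ c0 j), h2] with v h3 h4
    rw [hu0, hσ, add_sub_cancel] at h4
    rw [hu0, h4, h3]
    exact hc0 j (Finset.mem_range.1 hj)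
  obtain ⟨b2, hb2⟩ := hfree.and (hT u0)
  obtain ⟨K, b, hK, hP, hF⟩ := hm (n * (P ^ b2 * 2) + 1)
  set uE := σ (b 0 + ((3:ℤ) ^ (K - 1)) • one) with huE
  have key : ∀ q : Z n, nb (u0 + ((P:ℤ) ^ b2) • q - uE) (P ^ b2 * 2) →
      bZ ∣ u0 k0 + P ^ b2 * q k0 + (z u0).off.1 k0 - (z u0).mp.1.lam.d.1 k0 -
        (x (0 + b 0) - Hs (fun j C => (zs k0 ζ j (C + b j)).1.lam) 1 0) k0 := by
    intro q hq
    obtain ⟨h1, h2⟩ := hb2 q
    set u := u0 + ((P:ℤ) ^ b2) • q with hu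
    have h3 := hψ.lip_nb uE _ hq
    rw [add_sub_cancel, huE, hσ] at h3
    have h4 : Sub K 0 (ψ u - b 0) := by
      rw [sub_iff]
      refine ⟨by omega, fun k => ?_⟩
      have a1 := h3 k
      have a2 : n * (P ^ b2 * 2) < 3 ^ (K - 1) :=
        lt_of_le_of_lt (by omega) (Nat.lt_pow_self (by norm_num) : K - 1 < 3 ^ (K - 1))
      have a3 : (n : ℤ) * (P ^ b2 * 2) < 3 ^ (K - 1) := by exact_mod_cast a2
      have a4 : (3:ℤ) ^ (K - 0) = 3 * 3 ^ (K - 1) := pow_sub_succ (by omega)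
      simp only [Pi.sub_apply, Pi.add_apply, Pi.smul_apply, one, smul_eq_mul, mul_one] at a1 ⊢
      rw [abs_le] at a1
      constructor <;> linarith [a1.1, a1.2]
    have h5 := hF _ h4 fun j hj => by
      rw [sub_add_cancel]; exact h1 j (Finset.mem_range.2 hj)
    have h6 := rigid hP (hB K b) (a := 1) (by omega) h4 h5 k0
    have h7 : zs k0 ζ 0 = ζ := rfl
    simp only [Hs, range_one, sum_singleton, pow_zero, one_smul, anc_zero, sub_add_cancel, h7,
      pow_one] at h6 ⊢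
    rw [(hzu u).1, (hzu u).2, h2] at h6
    simpa [hu] using h6
  let q : Z n := fun k => (uE k - u0 k) / P ^ b2
  have hq : ∀ k, 0 ≤ uE k - u0 k - P ^ b2 * q k ∧ uE k - u0 k - P ^ b2 * q k < P ^ b2 := fun k => by
    have hp : (0:ℤ) < P ^ b2 := by positivity
    have h1 := Int.mul_ediv_add_emod (uE k - u0 k) (P ^ b2)
    have h2 := Int.emod_nonneg (uE k - u0 k) hp.ne'
    have h3 := Int.emod_lt_of_pos (uE k - u0 k) hp
    simp only [q]; constructor <;> linarith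
  have k1 := key q fun k => by
    have := hq k
    simp only [Pi.sub_apply, Pi.add_apply, Pi.smul_apply, smul_eq_mul]
    rw [abs_le]; constructor <;> linarith [this.1, this.2]
  have k2 := key (q + e k0) fun k => by
    have := hq k
    simp only [Pi.sub_apply, Pi.add_apply, Pi.smul_apply, smul_eq_mul, e_apply]
    rw [abs_le]
    split_ifs <;> constructor <;> linarith [this.1, this.2]
  have k3 := dvd_sub k2 k1
  simp only [Pi.add_apply, e_same] at k3
  obtain ⟨t, ht⟩ := k3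
  exact hbP b2 ⟨t, by rw [← ht]; ring⟩

end NoToeplitz
structure Plan (n : ℕ) : Type where
  K : ℕ → ℕ
  a : ℕ → ℕ
  S : ℕ → ℤ
  v : ℕ → ℕ → Z n
  O : ℕ → ℕ → Set (Z n)

namespace Plan

variable (k0 : Fin n) (p : Plan n)

structure OK : Prop where
  pr : ParOK n p.K p.S
  aa : ∀ t s, t < s → p.K t + 2 ≤ p.a s
  a1 : ∀ s, 1 ≤ p.a s
  aK : ∀ s, p.a s + 3 ≤ p.K s
  kk : ∀ s, kst n ≤ p.K s
  sep : ∀ s t, Sep (p.O s t) (2 * Rp n t (p.K t) (p.S t))
  agree : ∀ s t w, w ∈ p.O s t → ∀ t', t' < t → ∀ y, nb y (Rp n t (p.K t) (p.S t)) →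
    (w + y ∈ p.O s t' ↔ y ∈ p.O t t')
  vin : ∀ s i, i < (bN ^ n) ^ p.a s → nb (p.v s i) (3 ^ (p.K s - 2))
  vgap : ∀ s i i', i < i' → i' < (bN ^ n) ^ p.a s → p.v s i k0 + 8 * 3 ^ p.a s ≤ p.v s i' k0
  vdig : ∀ s i, i < (bN ^ n) ^ p.a s → ∀ j, j < p.a s → ∀ k,
    p.v s i k / bZ ^ j % bZ = emb (dg n i j) k
  vfree : ∀ s t i w, t < s → i < (bN ^ n) ^ p.a s → w ∈ p.O s t →
    ¬ nb (p.v s i - w) (rho n (p.K t))

noncomputable def ψ (s : ℕ) : Z n → Z n := psi (p.O s) p.K p.S s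

noncomputable def rg (s : ℕ) : Reg n := ⟨p.K s, p.a s, p.v s, p.ψ s⟩

noncomputable def qq (s t : ℕ) (w : Z n) : Z n := anc (p.K t) (p.ψ s w)

def Hole (s t : ℕ) (w : Z n) (j : ℕ) (C : Z n) : Prop :=
  t < s ∧ w ∈ p.O s t ∧ j ≤ p.K t ∧ anc (p.K t - j) C = p.qq s t w

noncomputable def tr (s t : ℕ) (w : Z n) (j : ℕ) (C : Z n) : Z n :=
  C - ((3:ℤ) ^ (p.K t - j)) • p.qq s t w

open Classical in
noncomputable def lab (s : ℕ) (j : ℕ) (C : Z n) : Lam n × Z n :=
  if h : ∃ r : ℕ × Z n, p.Hole s r.1 r.2 j C then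
    ((lab h.choose.1 j (p.tr s h.choose.1 h.choose.2 j C)).1,
      h.choose.2 + (lab h.choose.1 j (p.tr s h.choose.1 h.choose.2 j C)).2)
  else ((p.rg s).reg k0 j C, (p.rg s).X j C)
termination_by s
decreasing_by all_goals exact h.choose_spec.1

noncomputable def lam (s j : ℕ) (C : Z n) : Lam n := (p.lab k0 s j C).1

noncomputable def xx (s : ℕ) (c : Z n) : Z n := (p.lab k0 s 0 c).2

variable {k0 p}

lemma lab_free {s j : ℕ} {C : Z n} (h : ¬ ∃ t w, p.Hole s t w j C) :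
    p.lab k0 s j C = ((p.rg s).reg k0 j C, (p.rg s).X j C) := by
  rw [lab, dif_neg]
  rintro ⟨r, hr⟩; exact h ⟨r.1, r.2, hr⟩

lemma hole_iff {s t j : ℕ} {w C : Z n} : p.Hole s t w j C ↔
    t < s ∧ w ∈ p.O s t ∧ Sub (p.K t) j (p.tr s t w j C) := by
  unfold Hole Sub tr
  rw [sub_eq_add_neg, ← smul_neg, anc_add_smul, add_neg_eq_zero]

lemma tr_add (s t j : ℕ) (w C y : Z n) : p.tr s t w j (C + y) = p.tr s t w j C + y := by
  unfold tr; abel

lemma tr_par {s t j : ℕ} (w C : Z n) (hj : j < p.K t) :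
    p.tr s t w (j + 1) (par C) = par (p.tr s t w j C) ∧ pos (p.tr s t w j C) = pos C := by
  unfold tr
  rw [pow_smul_succ hj, sub_eq_add_neg C, ← smul_neg, par_add_smul, pos_add_smul, sub_eq_add_neg]
  exact ⟨rfl, rfl⟩

lemma Hole.par {s t j : ℕ} {w C : Z n} (h : p.Hole s t w j C) (hj : j < p.K t) :
    p.Hole s t w (j + 1) (par C) := by
  rw [hole_iff] at h ⊢
  exact ⟨h.1, h.2.1, by rw [(tr_par w C hj).1]; exact h.2.2.par hj⟩

lemma Hole.of_par {s t j : ℕ} {w C : Z n} (h : p.Hole s t w (j + 1) (Pool.Agent.MP_c4ca5b_lc.par C)) :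
    p.Hole s t w j C := by
  have hj : j < p.K t := h.2.2.1
  rw [hole_iff] at h ⊢
  refine ⟨h.1, h.2.1, sub_of_anc (i := 1) ?_⟩
  rw [anc_succ, anc_zero, ← (tr_par w C hj).1]; exact h.2.2

variable (h : p.OK k0)
include h

lemma OK.grid (s : ℕ) : IsGrid (p.ψ s) := psi_grid h.pr (h.sep s) s

lemma OK.inZ {s : ℕ} {u : Z n} (hu : nb u (3 ^ (p.K s - 2))) : InZ (p.K s) 0 (p.ψ s u) := by
  have h1 := h.aK s
  rw [inZ_iff]
  refine ⟨by omega, fun k => ?_⟩
  have h2 := psi_bound h.pr (h.sep s) (fun t ht => h.aa t s ht) u k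
  have h3 := hu k
  obtain ⟨d, hd⟩ : ∃ d, p.K s = d + 3 := ⟨p.K s - 3, by omega⟩
  have h4 : (3:ℤ) ^ p.a s ≤ 3 ^ d := pow_le_pow_right₀ (by norm_num) (by omega)
  have h5 : (1:ℤ) ≤ 3 ^ d := one_le_pow₀ (by norm_num)
  rw [hd] at h2 h3 ⊢
  rw [show d + 3 - 2 = d + 1 by omega, abs_le] at h3
  rw [show d + 3 - 1 - 0 = d + 2 by omega]
  simp only [pow_succ, ψ] at h2 h3 ⊢
  omega

lemma OK.rg_ok (s : ℕ) : (p.rg s).OK k0 := by
  refine ⟨h.grid s, h.a1 s, by have := h.aK s; simp only [rg]; omega,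
    fun i hi => (h.inZ (h.vin s i hi)).sub, fun i i' hi hi' => ?_, h.vdig s⟩
  have h1 := psi_bound h.pr (h.sep s) (fun t ht => h.aa t s ht) (p.v s i) k0
  have h2 := psi_bound h.pr (h.sep s) (fun t ht => h.aa t s ht) (p.v s i') k0
  have h3 := h.vgap s i i' hi hi'
  have hp : (0:ℤ) < 3 ^ p.a s := by positivity
  simp only [Reg.col, rg, anc, ψ]
  have h4 : (psi (p.O s) p.K p.S s (p.v s i) k0 + 1 * 3 ^ p.a s) / 3 ^ p.a s ≤
      psi (p.O s) p.K p.S s (p.v s i') k0 / 3 ^ p.a s := Int.ediv_le_ediv hp (by omega)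
  rw [Int.add_mul_ediv_right _ _ hp.ne'] at h4
  omega

lemma OK.copy {s t : ℕ} {w : Z n} (hts : t < s) (hw : w ∈ p.O s t) :
    pos (p.qq s t w) = ctr ∧ ∀ y, nb y (rho n (p.K t)) →
      p.ψ s (w + y) = p.ψ t y + ((3:ℤ) ^ p.K t) • p.qq s t w := by
  obtain ⟨q, h1, h2⟩ := psi_copy h.pr (h.sep s) (h.sep t) hts hw (h.agree s t w hw)
  have h3 : p.qq s t w = q := by
    have := h2 0 (nb_zero (rho_nonneg _ _))
    rw [add_zero] at this
    have h4 := (h.inZ (s := t) (u := 0) (nb_zero (by positivity))).sub.2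
    rw [qq, ψ, this, anc_add_smul]
    rw [Nat.sub_zero, ψ] at h4
    rw [h4, zero_add]
  rw [h3]; exact ⟨h1, h2⟩

lemma OK.near {s : ℕ} {u u' : Z n} {K : ℕ} (hu : nb (p.ψ s u - p.ψ s u') (2 * 3 ^ K)) :
    nb (u - u') (rho n K) := (h.grid s).coarse u' u (by positivity) hu

lemma OK.hole_near {s t t1 j : ℕ} {w w1 C : Z n} (h1 : p.Hole s t w j C) (h2 : p.Hole s t1 w1 j C)
    (ht : t ≤ t1) : nb (w - w1) (rho n (p.K t1)) := by
  have key : ∀ {t w}, p.Hole s t w j C → nb (p.ψ s w - ((3:ℤ) ^ j) • C) (3 ^ p.K t) := by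
    intro t w h1
    refine Pool.Agent.MP_c4ca5b_lc.Plan.same_anc ?_
    have := h1.2.2.1
    conv_rhs => rw [show p.K t = j + (p.K t - j) by omega, anc_add, anc_smul, h1.2.2.2]
    rfl
  have h3 : (3:ℤ) ^ p.K t ≤ 3 ^ p.K t1 := pow_le_pow_right₀ (by norm_num) (by
    rcases ht.lt_or_eq with h4 | h4
    · exact (h.pr.kk _ _ h4).le
    · rw [h4])
  refine h.near (s := s) ?_
  have := (key h1).sub (key h2)
  rw [sub_sub_sub_cancel_right] at this
  exact this.mono (by omega)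

lemma OK.hole_nest {s t t1 j : ℕ} {w w1 C : Z n} (h1 : p.Hole s t w j C) (h2 : p.Hole s t1 w1 j C)
    (ht : t < t1) : p.Hole t1 t (w - w1) j (p.tr s t1 w1 j C) ∧
      p.tr t1 t (w - w1) j (p.tr s t1 w1 j C) = p.tr s t w j C := by
  have h3 := h.hole_near h1 h2 ht.le
  have h4 := (h.copy h2.1 h2.2.1).2 _ h3
  rw [add_sub_cancel] at h4
  have h5 := h.pr.kk _ _ ht
  have h6 := h1.2.2.1
  have h7 : p.qq s t w = p.qq t1 t (w - w1) + ((3:ℤ) ^ (p.K t1 - p.K t)) • p.qq s t1 w1 := by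
    rw [show p.qq t1 t (w - w1) = anc (p.K t) (p.ψ t1 (w - w1)) from rfl,
      ← anc_add_smul, smul_smul, ← pow_add, show p.K t + (p.K t1 - p.K t) = p.K t1 by omega,
      ← h4, qq]
  have h8 : p.tr t1 t (w - w1) j (p.tr s t1 w1 j C) = p.tr s t w j C := by
    unfold tr
    rw [h7, smul_add, smul_smul, ← pow_add,
      show p.K t - j + (p.K t1 - p.K t) = p.K t1 - j by omega]
    abel
  refine ⟨hole_iff.2 ⟨ht, ?_, h8 ▸ (hole_iff.1 h1).2.2⟩, h8⟩
  exact (h.agree s t1 w1 h2.2.1 t ht _ (h3.mono (h.pr.rho_le t1))).1 (by simpa using h1.2.1)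

lemma OK.lab_hole : ∀ (s : ℕ) {t j : ℕ} {w C : Z n}, p.Hole s t w j C →
    p.lab k0 s j C = ((p.lab k0 t j (p.tr s t w j C)).1, w + (p.lab k0 t j (p.tr s t w j C)).2) := by
  intro s
  induction s using Nat.strong_induction_on with
  | _ s ih =>
    have key : ∀ {t t1 j : ℕ} {w w1 C : Z n}, p.Hole s t w j C → p.Hole s t1 w1 j C → t ≤ t1 →
        ((p.lab k0 t j (p.tr s t w j C)).1, w + (p.lab k0 t j (p.tr s t w j C)).2) =
        ((p.lab k0 t1 j (p.tr s t1 w1 j C)).1, w1 + (p.lab k0 t1 j (p.tr s t1 w1 j C)).2) := by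
      intro t t1 j w w1 C h1 h2 ht
      rcases ht.lt_or_eq with ht | rfl
      · obtain ⟨h3, h4⟩ := h.hole_nest h1 h2 ht
        rw [ih t1 h2.1 h3, h4]
        refine Prod.ext rfl ?_
        dsimp only
        abel
      · have h3 := h.hole_near h1 h2 le_rfl
        have := h.pr.rho_le t
        have := h.pr.Rpos t
        rw [h.sep s t w h1.2.1 w1 h2.2.1 (h3.mono (by omega))]
    intro t j w C h1
    have hex : ∃ r : ℕ × Z n, p.Hole s r.1 r.2 j C := ⟨(t, w), h1⟩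
    rw [lab, dif_pos hex]
    rcases le_total t hex.choose.1 with h2 | h2
    · exact (key h1 hex.choose_spec h2).symm
    · exact key hex.choose_spec h1 h2

lemma OK.lam_hole {s t j : ℕ} {w C : Z n} (h1 : p.Hole s t w j C) :
    p.lam k0 s j C = p.lam k0 t j (p.tr s t w j C) := by
  unfold lam; rw [h.lab_hole s h1]

lemma OK.xx_hole {s t : ℕ} {w C : Z n} (h1 : p.Hole s t w 0 C) :
    p.xx k0 s C = w + p.xx k0 t (p.tr s t w 0 C) := by
  unfold xx; rw [h.lab_hole s h1]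

omit h in
lemma lam_free {s j : ℕ} {C : Z n} (h : ¬ ∃ t w, p.Hole s t w j C) :
    p.lam k0 s j C = (p.rg s).reg k0 j C := by
  unfold lam; rw [lab_free h]

omit h in
lemma xx_free {s : ℕ} {C : Z n} (h : ¬ ∃ t w, p.Hole s t w 0 C) :
    p.xx k0 s C = (p.rg s).X 0 C := by
  unfold xx; rw [lab_free h]

lemma OK.face_free {s j : ℕ} {C : Z n} {k : Fin n} (hC : C k = 0 ∨ C k + 1 = 3 ^ (p.K s - j)) :
    ¬ ∃ t w, p.Hole s t w j C := by
  rintro ⟨t, w, h1⟩
  have h2 := (pos_eq_ctr_iff _).1 (h.copy h1.1 h1.2.1).1 k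
  rw [← h1.2.2.2] at h2
  have h3 := h.pr.kk _ _ h1.1
  have h4 := h1.2.2.1
  simp only [anc] at h2
  rcases hC with hC | hC
  · rw [hC] at h2; simp at h2
  · have hp : (0:ℤ) < 3 ^ (p.K t - j) := by positivity
    rw [show p.K s - j = p.K s - p.K t - 1 + 1 + (p.K t - j) by omega, pow_add, pow_succ] at hC
    rw [show C k = (3 ^ (p.K t - j) - 1) + (3 ^ (p.K s - p.K t - 1) * 3 - 1) * 3 ^ (p.K t - j) by
      linarith, Int.add_mul_ediv_right _ _ hp.ne', Int.ediv_eq_zero_of_lt (by omega) (by omega)]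
      at h2
    omega

lemma OK.lam_root (t : ℕ) : p.lam k0 t (p.K t) 0 = (p.rg t).reg k0 (p.K t) 0 :=
  lam_free (h.face_free (k := k0) (Or.inl rfl))

lemma OK.root_sp (t : ℕ) : (p.lam k0 t (p.K t) 0).sp := by
  rw [h.lam_root]; rfl

lemma OK.waive_p {s t j : ℕ} {w C : Z n} {k : Fin n} (h1 : p.Hole s t w j C)
    (h2 : ¬ p.Hole s t w j (C + e k)) : (p.lam k0 s j C).Fp k := by
  rw [h.lam_hole h1]
  rw [hole_iff] at h1 h2
  rw [tr_add] at h2
  have h3 : p.tr s t w j C k + 1 = 3 ^ (p.K t - j) := by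
    by_contra h3
    refine h2 ⟨h1.1, h1.2.1, sub_iff.2 ⟨h1.2.2.1, fun l => ?_⟩⟩
    have := (sub_iff.1 h1.2.2).2 l
    rw [Pi.add_apply, e_apply]
    split_ifs with hl
    · subst hl; omega
    · omega
  rw [lam_free (h.face_free (Or.inr h3))]
  exact h3

lemma OK.waive_m {s t j : ℕ} {w C : Z n} {k : Fin n} (h1 : p.Hole s t w j (C + e k))
    (h2 : ¬ p.Hole s t w j C) : (p.lam k0 s j (C + e k)).Fm k := by
  rw [h.lam_hole h1]
  rw [hole_iff] at h1 h2
  have h3 : p.tr s t w j (C + e k) k = 0 := by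
    by_contra h3
    refine h2 ⟨h1.1, h1.2.1, sub_iff.2 ⟨h1.2.2.1, fun l => ?_⟩⟩
    have := (sub_iff.1 h1.2.2).2 l
    rw [tr_add] at this h3
    rw [Pi.add_apply, e_apply] at this
    split_ifs at this with hl
    · subst hl; simp only [Pi.add_apply, e_same] at h3; omega
    · omega
  rw [lam_free (h.face_free (Or.inl h3))]
  exact h3

lemma OK.pair_cases {s j : ℕ} {C : Z n} {k : Fin n} (h1 : ¬ (p.lam k0 s j C).Fp k)
    (h2 : ¬ (p.lam k0 s j (C + e k)).Fm k) :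
    (∃ t w, p.Hole s t w j C ∧ p.Hole s t w j (C + e k)) ∨
      ((¬ ∃ t w, p.Hole s t w j C) ∧ ¬ ∃ t w, p.Hole s t w j (C + e k)) := by
  by_cases h3 : ∃ t w, p.Hole s t w j C ∧ p.Hole s t w j (C + e k)
  · exact Or.inl h3
  · right
    constructor
    · rintro ⟨t, w, h4⟩
      exact h1 (h.waive_p h4 fun h5 => h3 ⟨t, w, h4, h5⟩)
    · rintro ⟨t, w, h4⟩
      exact h2 (h.waive_m h4 fun h5 => h3 ⟨t, w, h5, h4⟩)

lemma OK.valid : ∀ s, (sys k0).Pyr (p.K s) (p.lam k0 s) ∧ Base (p.K s) (p.lam k0 s) (p.xx k0 s) ∧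
    ∀ c, Sub (p.K s) 0 c → p.ψ s (p.xx k0 s c) = c := by
  intro s
  induction s using Nat.strong_induction_on with
  | _ s ih =>
    have hr := h.rg_ok s
    have vert : ∀ j C, j < p.K s →
        ((p.lam k0 s j C).sp → pos C = ctr ∧ (sys k0).PS (p.lam k0 s (j + 1) (par C))) ∧
        (¬ (p.lam k0 s j C).sp →
          (sys k0).VR (pos C) (p.lam k0 s j C) (p.lam k0 s (j + 1) (par C))) := by
      intro j C hj
      by_cases c1 : ∃ t w, p.Hole s t w (j + 1) (par C)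
      · obtain ⟨t, w, h1⟩ := c1
        have h2 := h1.of_par
        have h3 : j < p.K t := h1.2.2.1
        rw [h.lam_hole h1, h.lam_hole h2, (tr_par w C h3).1, ← (tr_par (s := s) w C h3).2]
        exact ⟨(ih t h1.1).1.spc j _ h3 (hole_iff.1 h2).2.2,
          (ih t h1.1).1.vr j _ h3 (hole_iff.1 h2).2.2⟩
      · rw [lam_free c1]
        by_cases c2 : ∃ t w, p.Hole s t w j C
        · obtain ⟨t, w, h1⟩ := c2
          obtain rfl : j = p.K t := by
            by_contra h2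
            exact c1 ⟨t, w, h1.par (lt_of_le_of_ne h1.2.2.1 h2)⟩
          have h2 : C = p.qq s t w := by simpa using h1.2.2.2
          have h3 : pos C = ctr := by rw [h2]; exact (h.copy h1.1 h1.2.1).1
          rw [h.lam_hole h1, (hole_iff.1 h1).2.2.root]
          refine ⟨fun _ => ⟨h3, hr.ps (by have := h.aa t s h1.1; simp only [rg]; omega) h3
            fun i hi h4 => ?_⟩, fun h4 => absurd (h.root_sp t) h4⟩
          refine h.vfree s t i w h1.1 hi h1.2.1 (h.near (s := s) ((Pool.Agent.MP_c4ca5b_lc.Plan.same_anc (K := p.K t) ?_).mono ?_))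
          · rw [h2] at h4; exact h4
          · have : (0:ℤ) < 3 ^ p.K t := by positivity
            omega
        · rw [lam_free c2]
          exact ⟨fun h1 => absurd h1 hj.ne, fun _ => hr.vr C hj⟩
    refine ⟨⟨fun j C hC => ?_, fun j C hj _ => (vert j C hj).1, fun j C hj _ => (vert j C hj).2,
      fun j C k _ _ _ hs h1 h2 => ?_⟩, ⟨fun c _ => ?_, fun c k _ _ h1 h2 => ?_⟩, fun c _ => ?_⟩
    · by_cases c2 : ∃ t w, p.Hole s t w j C
      · obtain ⟨t, w, h1⟩ := c2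
        rw [h.lam_hole h1]
        exact (ih t h1.1).1.sr j _ (hole_iff.1 h1).2.2
      · rw [lam_free c2]; exact hr.sr hC
    · rcases h.pair_cases h1 h2 with ⟨t, w, h3, h4⟩ | ⟨h3, h4⟩
      · have s1 := (hole_iff.1 h3).2.2
        have s2 := (hole_iff.1 h4).2.2
        rw [tr_add] at s2
        have hj := lt_of_pair s1 s2
        rw [h.lam_hole h3] at hs h1
        rw [h.lam_hole h4, tr_add] at h2
        rw [h.lam_hole h3, h.lam_hole h4, h.lam_hole (h3.par hj), (tr_par w C hj).1,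
          ← (tr_par (s := s) w C hj).2, tr_add]
        exact (ih t h3.1).1.hr j _ k hj s1 s2 hs h1 h2
      · have h5 : ¬ ∃ t w, p.Hole s t w (j + 1) (par C) := by
          rintro ⟨t, w, h5⟩; exact h3 ⟨t, w, h5.of_par⟩
        rw [lam_free h3] at h1
        rw [lam_free h4] at h2
        rw [lam_free h3, lam_free h4, lam_free h5]
        exact hr.hr j C k h1 h2
    · by_cases c2 : ∃ t w, p.Hole s t w 0 c
      · obtain ⟨t, w, h1⟩ := c2
        rw [h.lam_hole h1]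
        exact (ih t h1.1).2.1.low _ (hole_iff.1 h1).2.2
      · rw [lam_free c2]; exact hr.low c
    · rcases h.pair_cases h1 h2 with ⟨t, w, h3, h4⟩ | ⟨h3, h4⟩
      · have s1 := (hole_iff.1 h3).2.2
        have s2 := (hole_iff.1 h4).2.2
        rw [tr_add] at s2
        rw [h.lam_hole h3] at h1
        rw [h.lam_hole h4, tr_add] at h2
        rw [h.lam_hole h3, h.xx_hole h3, h.xx_hole h4, tr_add,
          (ih t h3.1).2.1.inc _ k s1 s2 h1 h2]
        abel
      · rw [lam_free h3, xx_free h3, xx_free h4]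
        exact hr.inc0 c k
    · by_cases c2 : ∃ t w, p.Hole s t w 0 c
      · obtain ⟨t, w, h1⟩ := c2
        have s1 := (hole_iff.1 h1).2.2
        have h2 := (ih t h1.1).2.2 _ s1
        have h3 : nb (p.xx k0 t (p.tr s t w 0 c)) (rho n (p.K t)) := by
          have := h.near (s := t) (u := p.xx k0 t (p.tr s t w 0 c)) (u' := 0) (K := p.K t)
            ((Pool.Agent.MP_c4ca5b_lc.Plan.same_anc (K := p.K t) (by
              have a1 := s1.2
              have a2 := (h.inZ (s := t) (u := 0) (nb_zero (by positivity))).sub.2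
              rw [Nat.sub_zero] at a1 a2
              rw [h2, a1, a2])).mono (by
              have : (0:ℤ) < 3 ^ p.K t := by positivity
              omega))
          simpa using this
        rw [h.xx_hole h1, (h.copy h1.1 h1.2.1).2 _ h3, h2]
        simp [tr]
      · rw [xx_free c2]
        have := hr.X_spec 0 c
        rwa [anc_zero] at this

omit h in
variable (k0 p) in
noncomputable def zz (s : ℕ) (u : Z n) : Lab n :=
  ⟨fun k => (p.ψ s u k : ZMod (N0 n)), clamp (p.xx k0 s (p.ψ s u) - u),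
    (sys k0).enc (p.lam k0 s) 0 (p.ψ s u)⟩

variable [Nontrivial (Fin n)]

lemma OK.zz_copy {s t : ℕ} {w y : Z n} (hts : t < s) (hw : w ∈ p.O s t)
    (hy : nb y (3 ^ (p.K t - 2))) : p.zz k0 s (w + y) = p.zz k0 t y := by
  have h1 := (h.copy hts hw).2 y (hy.mono (by
    have := rho_pos n (p.K t)
    have h2 : (3:ℤ) ^ (p.K t - 2) ≤ 3 ^ p.K t := pow_le_pow_right₀ (by norm_num) (by omega)
    have : (0:ℤ) < 3 ^ p.K t := by positivity
    omega))
  have hole : ∀ j C, Sub (p.K t) j C →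
      p.Hole s t w j (C + ((3:ℤ) ^ (p.K t - j)) • p.qq s t w) ∧
      p.tr s t w j (C + ((3:ℤ) ^ (p.K t - j)) • p.qq s t w) = C := by
    intro j C hC
    have : p.tr s t w j (C + ((3:ℤ) ^ (p.K t - j)) • p.qq s t w) = C := by simp [tr]
    exact ⟨hole_iff.2 ⟨hts, hw, by rw [this]; exact hC⟩, this⟩
  unfold zz
  rw [h1]
  congr 1
  · funext k
    obtain ⟨d, hd⟩ := Nat.exists_eq_add_of_le (h.kk t)
    have : ((3 : ZMod (N0 n))) ^ kst n = 0 := by
      have := ZMod.natCast_self (N0 n)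
      rw [← this]; unfold N0; push_cast; rfl
    simp only [Pi.add_apply, Pi.smul_apply, smul_eq_mul]
    push_cast
    rw [hd, pow_add, this]; simp
  · have := hole 0 _ (h.inZ hy).sub
    rw [Nat.sub_zero] at this
    rw [h.xx_hole this.1, this.2]
    congr 1; abel
  · exact (sys k0).enc_translate (fun j C hC => by
      rw [h.lam_hole (hole j C hC).1, (hole j C hC).2]) (h.root_sp t) (h.inZ hy)

omit h in
lemma zz_cong (s : ℕ) (u u' : Z n) : cong (p.zz k0 s u) (p.zz k0 s u') (p.ψ s u' - p.ψ s u) :=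
  fun k => by simp [zz]

lemma OK.off_val {s : ℕ} {u : Z n} (hu : nb u (3 ^ (p.K s - 2))) :
    (p.zz k0 s u).off.1 = p.xx k0 s (p.ψ s u) - u :=
  clamp_val (((h.grid s).fibre ((h.valid s).2.2 _ (h.inZ hu).sub)).mono (Bd_ge n))

lemma OK.zz_rule {s : ℕ} {u : Z n} (hu : nb u (3 ^ (p.K s - 2) - Bd n)) :
    Rule k0 (fun v => p.zz k0 s (u + v)) := by
  have hg := h.grid s
  obtain ⟨hP, hB, hx⟩ := h.valid s
  have hn : (0:ℤ) ≤ n * Rw n := mul_nonneg (by positivity) (by have := Rw_pos n; omega)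
  have hin : ∀ y, nb y (Bd n) → nb (u + y) (3 ^ (p.K s - 2)) := fun y hy => by
    simpa using hu.add hy
  have hu0 : nb u (3 ^ (p.K s - 2)) := by simpa using hin 0 (nb_zero (Bd_pos n))
  have z0 := h.inZ hu0
  have hK : 0 < p.K s := z0.1
  have tru : ∀ y c, nb y (Rw n) → nb c 1 → cong (p.zz k0 s u) (p.zz k0 s (u + y)) c →
      p.ψ s (u + y) = p.ψ s u + c := by
    intro y c hy hc h1
    rw [← cong_unique (zz_cong s u (u + y)) h1 (((hg.lip_nb u y hy).sub hc).mono (by omega))]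
    abel
  constructor <;> simp only [add_zero]
  · intro i
    exact ⟨_, fun k => hg.lip u i k, zz_cong s _ _⟩
  · intro i
    refine ⟨p.ψ s (u + Mc n • e i) - p.ψ s u - ((n : ℤ) + 1) • e i, fun k => hg.exp u i k, ?_⟩
    rw [add_sub_cancel]; exact zz_cong s _ _
  · intro k
    obtain ⟨y, h1, h2⟩ := hg.surp u k
    refine ⟨y, h1, ?_⟩
    have := zz_cong (k0 := k0) (p := p) s u (u + y)
    rwa [h2, add_sub_cancel_left] at this
  · intro k
    obtain ⟨y, h1, h2⟩ := hg.surm u k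
    refine ⟨y, h1, ?_⟩
    have := zz_cong (k0 := k0) (p := p) s u (u + y)
    rwa [← h2, sub_add_cancel_left] at this
  · intro y hy h1
    have h2 := tru y 0 hy (nb_zero zero_le_one) h1
    rw [add_zero] at h2
    rw [h.off_val hu0, h.off_val (hin y (hy.mono (Bd_ge n))), h2]
    exact ⟨by simp only [zz]; rw [h2], by abel⟩
  · intro y k hy h1
    have h2 := tru y _ hy (nb_e k) h1
    rw [h.off_val hu0, h.off_val (hin y (hy.mono (Bd_ge n)))]
    simp only [zz, h2, Sys.enc]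
    refine ⟨hP.rel hK z0.sub (z0.sub_add k), by rw [add_sub_cancel_right], fun h3 h4 => ?_⟩
    rw [show (((sys k0).mk' (p.lam k0 s) 0 (p.ψ s u)).lam.inc k).1 = _ from
      hB.inc _ k z0.sub (z0.sub_add k) h3 h4]
    abel
  · exact ⟨hP.k0 (p.K s) 0 _ (by omega) z0, fun k => hP.chk k hK z0.sub, hB.low _ z0.sub⟩
  · intro h1
    have h2 := hin _ (p.zz k0 s u).off.2
    have h3 : p.ψ s (u + (p.zz k0 s u).off.1) = p.ψ s u := by
      rw [h.off_val hu0, add_sub_cancel, hx _ z0.sub]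
    refine ⟨?_, ?_⟩
    · have : (p.zz k0 s (u + (p.zz k0 s u).off.1)).mp = (p.zz k0 s u).mp := by
        rw [zz, h3]; rfl
      rw [this]; exact h1
    · rw [h.off_val h2, h3, h.off_val hu0]; abel

end Plan

end Pool.Agent.MP_c4ca5b_lc.B
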