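import Pool.Agent.MP_c4ca5b_lc.Per.Lcl

/-! The test action attached to a subgroup of prime index, and the combined labelling problem. -/

set_option linter.unusedSectionVars false
set_option linter.style.haveILetI false

namespace Pool.Agent.MP_c4ca5b_lc.B

open Finset Filter Topology

variable {n : ℕ}

lemma exists_prime_index {G : Type} [AddCommGroup G] : ∀ (N : ℕ) (H : AddSubgroup G),
    H.index = N → N ≠ 0 → H ≠ ⊤ → ∃ K, H ≤ K ∧ K.index.Prime := by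
  intro N
  induction N using Nat.strong_induction_on with
  | _ N ih =>
    intro H hN h0 h1
    have : H.FiniteIndex := ⟨hN ▸ h0⟩
    by_cases hs : ∃ K, H < K ∧ K ≠ ⊤
    · obtain ⟨K, h2, h3⟩ := hs
      obtain ⟨K', h4, h5⟩ := ih K.index (hN ▸ AddSubgroup.index_strictAnti h2) K rfl
        (ne_zero_of_dvd_ne_zero (hN ▸ h0) (AddSubgroup.index_dvd_of_le h2.le)) h3
      exact ⟨K', h2.le.trans h4, h5⟩
    · push Not at hs
      have hsur := QuotientAddGroup.mk'_surjective H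
      have : Nontrivial (G ⧸ H) := QuotientAddGroup.nontrivial_iff.2 h1
      have : IsSimpleAddGroup (G ⧸ H) := ⟨fun K _ => by
        have h2 : H ≤ K.comap (QuotientAddGroup.mk' H) := QuotientAddGroup.le_comap_mk' H K
        rcases h2.lt_or_eq with h3 | h3
        · exact Or.inr (AddSubgroup.comap_injective hsur (by rw [hs _ h3, AddSubgroup.comap_top]))
        · exact Or.inl (AddSubgroup.comap_injective hsur (by
            rw [← h3, AddMonoidHom.comap_bot, QuotientAddGroup.ker_mk']))⟩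
      exact ⟨H, le_rfl, IsSimpleAddGroup.prime_card⟩

lemma index_dvd {G : Type} [AddCommGroup G] {H : AddSubgroup G} (hp : H.index.Prime) {M : ℕ}
    (h : ∀ v : G, (M : ℤ) • v ∈ H) : H.index ∣ M := by
  by_contra hn
  obtain ⟨a, b, hab⟩ := Nat.isCoprime_iff_coprime.2 ((Nat.Prime.coprime_iff_not_dvd hp).2 hn)
  refine hp.one_lt.ne' (AddSubgroup.index_eq_one.2 ((AddSubgroup.eq_top_iff' H).2 fun v => ?_))
  rw [← one_smul ℤ v, ← hab, add_smul, mul_smul, mul_smul]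
  exact H.add_mem (H.zsmul_mem (by rw [natCast_zsmul]; exact H.nsmul_index_mem v) a)
    (H.zsmul_mem (h v) b)

lemma exists_form {Γ : AddSubgroup (Z n)} (hp : Γ.index.Prime) :
    ∃ (α : Z n) (i : Fin n), ¬ (Γ.index : ℤ) ∣ α i ∧ ∀ v ∈ Γ, (Γ.index : ℤ) ∣ α ⬝ᵥ v := by
  have : Fact Γ.index.Prime := ⟨hp⟩
  let φ : Z n →+ ZMod Γ.index :=
    (addEquivOfPrimeCardEq (G := Z n ⧸ Γ) (G' := ZMod Γ.index) (p := Γ.index) rfl
      (Nat.card_zmod _)).toAddMonoidHom.comp (QuotientAddGroup.mk' Γ)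
  have hk : ∀ v, φ v = 0 ↔ v ∈ Γ := fun v => by simp [φ]
  have hφ : ∀ v, φ v = (((fun i => ((φ (e i)).val : ℤ)) ⬝ᵥ v : ℤ) : ZMod Γ.index) := by
    refine unit_induction 0 (by simp) fun u k => ?_
    rw [map_add, dotProduct_add, e, dotProduct_single]
    push_cast
    rw [ZMod.natCast_zmod_val, mul_one]
    exact (add_left_inj _).symm
  obtain ⟨i, hi⟩ : ∃ i, φ (e i) ≠ 0 := by
    by_contra hn
    push Not at hn
    refine hp.one_lt.ne' (AddSubgroup.index_eq_one.2 ((AddSubgroup.eq_top_iff' Γ).2 fun v => ?_))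
    rw [← hk, hφ]
    simp [hn, dotProduct]
  refine ⟨fun i => ((φ (e i)).val : ℤ), i, fun h => hi ?_, fun v hv => ?_⟩
  · have := (ZMod.intCast_zmod_eq_zero_iff_dvd _ _).2 h
    simpa using this
  · rw [← ZMod.intCast_zmod_eq_zero_iff_dvd, ← hφ, hk]
    exact hv

lemma chain_step {p : ℕ} (hp : 1 < p) (v : Z n) (c : Z n × ℕ) : ∃ d : Z n × ℕ, c.2 ≤ d.2 ∧
    (∀ i, (p : ℤ) ^ c.2 ∣ d.1 i - c.1 i) ∧ (v ≠ 0 → ¬ (p : ℤ) ^ d.2 ∣ d.1 ⬝ᵥ v) := by
  by_cases hv : v = 0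
  · exact ⟨c, le_rfl, by simp, fun h => absurd hv h⟩
  obtain ⟨α, h1, h2⟩ : ∃ α : Z n, (∀ i, (p : ℤ) ^ c.2 ∣ α i - c.1 i) ∧ α ⬝ᵥ v ≠ 0 := by
    by_cases h : c.1 ⬝ᵥ v = 0
    · refine ⟨c.1 + ((p : ℤ) ^ c.2) • v, fun i => by simp, ?_⟩
      rw [add_dotProduct, h, zero_add, smul_dotProduct, smul_eq_mul]
      exact mul_ne_zero (by positivity) (fun h1 => hv (dotProduct_self_eq_zero.1 h1))
    · exact ⟨c.1, by simp, h⟩
  refine ⟨(α, c.2 + (α ⬝ᵥ v).natAbs), by simp, h1, fun _ h3 => ?_⟩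
  have h4 : p ^ (α ⬝ᵥ v).natAbs ∣ (α ⬝ᵥ v).natAbs := by
    rw [← Int.natCast_dvd]
    push_cast
    exact (pow_dvd_pow _ (by simp)).trans h3
  exact absurd (Nat.le_of_dvd (Int.natAbs_pos.2 h2) h4) (not_le.2 (Nat.lt_pow_self hp))

lemma exists_chain {Γ : AddSubgroup (Z n)} (hp : Γ.index.Prime) :
    ∃ c : ℕ → Z n × ℕ, (∀ v : Z n, v ≠ 0 → ∃ k, ¬ (Γ.index : ℤ) ^ (c k).2 ∣ (c k).1 ⬝ᵥ v) ∧
      (∀ k N, k ≤ N → (c k).2 ≤ (c N).2) ∧ ∀ N, ∀ v ∈ Γ, ∃ t : Z n, ∀ k, k ≤ N →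
        (Γ.index : ℤ) ^ (c k).2 ∣ (c k).1 ⬝ᵥ (v - (Γ.index : ℤ) • t) := by
  obtain ⟨α, i, h1, h2⟩ := exists_form hp
  generalize Γ.index = p at hp h1 h2 ⊢
  obtain ⟨en, hen⟩ := exists_surjective_nat (Z n)
  choose st s1 s2 s3 using chain_step (n := n) hp.one_lt
  let c : ℕ → Z n × ℕ := fun k => Nat.rec (α, 1) (fun k d => st (en k) d) k
  have hc : ∀ k N, k ≤ N → (c k).2 ≤ (c N).2 ∧ ∀ j, (p : ℤ) ^ (c k).2 ∣ (c N).1 j - (c k).1 j := by
    intro k N hk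
    induction N, hk using Nat.le_induction with
    | base => simp
    | succ N _ ih =>
      refine ⟨ih.1.trans (s1 _ _), fun j => ?_⟩
      have := ((pow_dvd_pow _ ih.1).trans (s2 (en N) (c N) j)).add (ih.2 j)
      rwa [sub_add_sub_cancel] at this
  have hd : ∀ k N, k ≤ N → ∀ v : Z n, (p : ℤ) ^ (c k).2 ∣ (c N).1 ⬝ᵥ v - (c k).1 ⬝ᵥ v := by
    intro k N hk v
    rw [← sub_dotProduct]
    exact Finset.dvd_sum fun j _ => ((hc k N hk).2 j).mul_right _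
  refine ⟨c, fun v hv => ?_, fun k N h => (hc k N h).1, fun N v hv => ?_⟩
  · obtain ⟨k, rfl⟩ := hen v
    exact ⟨k + 1, s3 _ _ hv⟩
  · have a1 : (p : ℤ) ∣ (c N).1 ⬝ᵥ v := by
      have := hd 0 N (Nat.zero_le _) v
      rw [show (c 0).2 = 1 from rfl, pow_one] at this
      exact (dvd_iff_dvd_of_dvd_sub this).2 (h2 v hv)
    have a2 : ¬ (p : ℤ) ∣ (c N).1 i := fun h => by
      have := (hc 0 N (Nat.zero_le _)).2 i
      rw [show (c 0).2 = 1 from rfl, pow_one] at this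
      exact h1 ((dvd_iff_dvd_of_dvd_sub this).1 h)
    obtain ⟨t, ht⟩ := a1
    obtain ⟨a, b, hab⟩ : IsCoprime ((p : ℤ) ^ (c N).2) ((c N).1 i) :=
      (((Nat.prime_iff_prime_int.1 hp).irreducible.coprime_iff_not_dvd).2 a2).pow_left
    refine ⟨(t * b) • e i, fun k hk => (dvd_iff_dvd_of_dvd_sub (hd k N hk _)).1
      ((pow_dvd_pow _ (hc k N hk).1).trans ⟨p * t * a, ?_⟩)⟩
    rw [dotProduct_sub, dotProduct_smul, dotProduct_smul, e, dotProduct_single, ht]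
    simp only [smul_eq_mul]
    linear_combination (-(p * t)) * hab

@[reducible] def actP (A : ℕ → ℕ) (α : ℕ → Z n) :
    AddAction (Fin n → ℤ) (∀ k, ZMod (A k)) where
  vadd v y := fun k => ((α k ⬝ᵥ v : ℤ) : ZMod (A k)) + y k
  zero_vadd y := by
    funext k
    show ((α k ⬝ᵥ 0 : ℤ) : ZMod (A k)) + y k = y k
    simp
  add_vadd v w y := by
    funext k
    show ((α k ⬝ᵥ (v + w) : ℤ) : ZMod (A k)) + y k =
      ((α k ⬝ᵥ v : ℤ) : ZMod (A k)) + (((α k ⬝ᵥ w : ℤ) : ZMod (A k)) + y k)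
    rw [dotProduct_add]
    push_cast
    ring

theorem toeplitz {P : LCL n} (h : InBaire P) (A : ℕ → ℕ) [∀ k, NeZero (A k)] (α : ℕ → Z n)
    (hA : ∀ v : Z n, v ≠ 0 → ∃ k, ¬ (A k : ℤ) ∣ α k ⬝ᵥ v) : ∃ z : Z n → P.Label,
      (∀ u, (fun v : {v : Fin n → ℤ // ∀ i, |v i| ≤ (P.radius : ℤ)} => z (u + v.1)) ∈ P.allowed) ∧
      ∀ w, ∃ N : ℕ, ∀ v : Z n, (∀ k, k ≤ N → (A k : ℤ) ∣ α k ⬝ᵥ v) → z (w + v) = z w := by
  letI := actP A α
  have hv : ∀ (v : Z n) (y : ∀ k, ZMod (A k)),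
      v +ᵥ y = (fun k => ((α k ⬝ᵥ v : ℤ) : ZMod (A k))) + y := fun _ _ => rfl
  have hcont : ∀ v : Z n, Continuous fun y : ∀ k, ZMod (A k) => v +ᵥ y := fun v => by
    simp only [hv]; fun_prop
  have hopen : ∀ v : Z n, IsOpenMap fun y : ∀ k, ZMod (A k) => v +ᵥ y := fun v => by
    simp only [hv]; exact isOpenMap_add_left _
  obtain ⟨f, hf, Y0, hY0, -, hval⟩ := @h (∀ k, ZMod (A k)) _ _ (borel _)
    (@BorelSpace.mk _ _ (borel _) rfl) _
    (fun v => by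
      letI := borel (∀ k, ZMod (A k))
      haveI : BorelSpace (∀ k, ZMod (A k)) := ⟨rfl⟩
      exact (hcont v).measurable)
    (fun v y hv0 h => by
      obtain ⟨k, hk⟩ := hA v hv0
      have := congrFun h k
      rw [hv, Pi.add_apply, add_eq_right] at this
      exact hk ((ZMod.intCast_zmod_eq_zero_iff_dvd _ _).1 this))
  have := P.finite_label
  choose O hO1 hO2 using fun l => (hf l).residualEq_isOpen
  have hG : ∀ᶠ y in residual (∀ k, ZMod (A k)), y ∈ Y0 ∧ ∀ l, (f y = l ↔ y ∈ O l) := by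
    refine Filter.Eventually.and hY0 ?_
    rw [eventually_countable_forall]
    intro l
    filter_upwards [hO2 l] with y hy
    exact iff_of_eq hy
  have hG' : ∀ᶠ y in residual (∀ k, ZMod (A k)), ∀ v : Z n,
      v +ᵥ y ∈ Y0 ∧ ∀ l, (f (v +ᵥ y) = l ↔ v +ᵥ y ∈ O l) := by
    rw [eventually_countable_forall]
    intro v
    exact (tendsto_residual_of_isOpenMap (hcont v) (hopen v)).eventually hG
  obtain ⟨y, hy⟩ := (dense_of_mem_residual hG').nonempty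
  refine ⟨fun v => f (v +ᵥ y), fun u => ?_, fun w => ?_⟩
  · have := hval _ (hy u).1
    simp only [← add_vadd] at this
    simpa only [add_comm] using this
  · have h1 : w +ᵥ y ∈ O (f (w +ᵥ y)) := ((hy w).2 _).1 rfl
    obtain ⟨I, u, h2, h3⟩ := isOpen_pi_iff.1 (hO1 _) _ h1
    refine ⟨I.sup id, fun v hv' => ((hy _).2 _).2 (h3 fun k hk => ?_)⟩
    have h4 : ((w + v) +ᵥ y) k = (w +ᵥ y) k := by
      rw [hv, hv, Pi.add_apply, Pi.add_apply, dotProduct_add, Int.cast_add,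
        (ZMod.intCast_zmod_eq_zero_iff_dvd _ _).2 (hv' k (Finset.le_sup (f := id) hk)), add_zero]
    rw [h4]
    exact (h2 k hk).2

variable [Bs]

instance : NeZero bN := ⟨bN_pos.ne'⟩

/-- The label is a moving set of residues inside one coset of a subgroup other than `Γ`. -/
def PRule (Γ : AddSubgroup (Z n)) (m : ℕ) (z : Z n → Set (Fin n → ZMod bN)) : Prop :=
  (∃ v, castv bN v ∈ z 0) ∧ (∃ Γ' : AddSubgroup (Z n), Γ' ≠ Γ ∧ Γ'.index.Prime ∧ Γ'.index ≤ m ∧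
    ∀ v w, castv bN v ∈ z 0 → castv bN w ∈ z 0 → v - w ∈ Γ') ∧
    ∀ i r, r ∈ z (e i) ↔ r + castv bN (e i) ∈ z 0

abbrev CL (n : ℕ) : Type := Prop × Lab n × Set (Fin n → ZMod bN)

def CRule (k0 : Fin n) (Γ : AddSubgroup (Z n)) (m : ℕ) (z : Z n → CL n) : Prop :=
  (∀ i, (z (e i)).1 ↔ (z 0).1) ∧ ((z 0).1 → Rule k0 fun v => (z v).2.1) ∧
    (¬ (z 0).1 → PRule Γ m fun v => (z v).2.2)

def cLCL (k0 : Fin n) (Γ : AddSubgroup (Z n)) (m : ℕ) : LCL n where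
  Label := CL n
  finite_label := inferInstance
  radius := (Bd n).toNat
  allowed := {p | ∃ z, CRule k0 Γ m z ∧ ∀ v, p v = z v.1}

lemma cLCL_iff (k0 : Fin n) (Γ : AddSubgroup (Z n)) (m : ℕ) (z : Z n → CL n) :
    (fun v : {v : Fin n → ℤ // ∀ i, |v i| ≤ ((cLCL k0 Γ m).radius : ℤ)} => z v.1) ∈
      (cLCL k0 Γ m).allowed ↔ CRule k0 Γ m z := by
  refine ⟨fun ⟨z', h1, h2⟩ => ?_, fun h => ⟨z, h, fun _ => rfl⟩⟩
  have h3 : ∀ y, nb y (Bd n) → z y = z' y := fun y hy => h2 ⟨y, fun i => by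
    have := hy i; have := Bd_pos n
    show |y i| ≤ ((Bd n).toNat : ℤ); omega⟩
  have h0 := h3 0 (nb_zero (Bd_pos n))
  have h4 : ∀ i, z (e i) = z' (e i) := fun i =>
    h3 _ ((nb_e i).mono (by have := Bd_ge n; have := Rw_pos n; omega))
  refine ⟨fun i => by rw [h0, h4]; exact h1.1 i, fun h5 => (h1.2.1 (h0 ▸ h5)).local
    fun y hy => by rw [h3 y hy], fun h5 => ?_⟩
  have := h1.2.2 (h0 ▸ h5)
  unfold PRule at *
  simp only [h0, h4]
  exact this

theorem not_inBaire [Nontrivial (Fin n)] (k0 : Fin n) {Γ : AddSubgroup (Z n)} (m : ℕ)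
    (hp : Γ.index.Prime) (h1 : (Γ.index : ℤ) ∣ bZ) (h2 : ∀ i : ℕ, ¬ bZ ∣ (Γ.index : ℤ) ^ i) :
    ¬ InBaire (cLCL k0 Γ m) := by
  intro h
  obtain ⟨c, c1, c2, c3⟩ := exists_chain hp
  have : ∀ k, NeZero (Γ.index ^ (c k).2) := fun k => ⟨pow_ne_zero _ hp.ne_zero⟩
  obtain ⟨z0, hz, hT⟩ := toeplitz h (fun k => Γ.index ^ (c k).2) (fun k => (c k).1)
    (by simpa using c1)
  let z : Z n → CL n := z0
  have hR : ∀ u, CRule k0 Γ m fun v => z (u + v) := fun u =>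
    (cLCL_iff k0 Γ m fun v => z (u + v)).1 (hz u)
  have hpw : ∀ N (v : Z n) k, k ≤ N → ((Γ.index ^ (c k).2 : ℕ) : ℤ) ∣
      (c k).1 ⬝ᵥ ((Γ.index : ℤ) ^ (c N).2) • v := fun N v k hk => by
    rw [dotProduct_smul, Nat.cast_pow]
    exact (pow_dvd_pow _ (c2 k N hk)).mul_right _
  have hfl : ∀ u, (z u).1 ↔ (z 0).1 := unit_induction 0 Iff.rfl fun u i => by
    have := (hR u).1 i
    simp only [add_zero] at this
    rw [this]
  by_cases h0 : (z 0).1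
  · refine no_toeplitz (k0 := k0) (z := fun v => (z v).2.1)
      (fun u => (hR u).2.1 (by simpa using (hfl u).2 h0)) hp.pos h1 h2 fun w => ?_
    obtain ⟨N, hN⟩ := hT w
    exact ⟨(c N).2, fun v => congrArg (fun l : CL n => l.2.1) (hN _ (hpw N v))⟩
  have h3 : ∀ u, PRule Γ m fun v => (z (u + v)).2.2 := fun u =>
    (hR u).2.2 (by simpa using fun h4 => h0 ((hfl u).1 h4))
  have h4 : ∀ u r, r ∈ (z u).2.2 ↔ r + castv _ u ∈ (z 0).2.2 := by
    refine unit_induction 0 (fun r => by rw [show castv bN (0 : Z n) = 0 by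
      funext k; simp [castv], add_zero]) fun u i => ?_
    have h5 : ∀ r, r ∈ (z (u + e i)).2.2 ↔ r + castv _ (e i) ∈ (z u).2.2 := fun r => by
      simpa using (h3 u).2.2 i r
    constructor
    · intro h6 r
      rw [h5, h6, castv_add, add_assoc, add_comm (castv _ (e i))]
    · intro h6 r
      have := h6 (r - castv _ (e i))
      rw [h5, sub_add_cancel, castv_add] at this
      rw [this, show r - castv bN (e i) + (castv bN u + castv bN (e i)) = r + castv bN u by abel]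
  obtain ⟨N, hN⟩ := hT 0
  obtain ⟨⟨v0, hv0⟩, ⟨Γ', g1, g2, -, g3⟩, -⟩ := h3 0
  simp only [add_zero] at hv0 g3
  have h5 : ∀ v : Z n, (∀ k, k ≤ N → ((Γ.index ^ (c k).2 : ℕ) : ℤ) ∣ (c k).1 ⬝ᵥ v) → v ∈ Γ' := by
    intro v hv
    have a1 : z v = z 0 := by
      have := hN v hv
      rwa [zero_add] at this
    have := g3 (v0 + v) v0 (by rw [castv_add, ← h4, a1]; exact hv0) hv0
    rwa [add_sub_cancel_left] at this
  have h6 : Γ'.index = Γ.index := (Nat.prime_dvd_prime_iff_eq g2 hp).1 (g2.dvd_of_dvd_pow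
    (index_dvd g2 (M := Γ.index ^ (c N).2) fun v => h5 _ (by rw [Nat.cast_pow]; exact hpw N v)))
  have h7 : Γ ≤ Γ' := fun v hv => by
    obtain ⟨t, ht⟩ := c3 N v hv
    have a1 := Γ'.nsmul_index_mem t
    rw [h6, ← natCast_zsmul] at a1
    have := Γ'.add_mem (h5 _ (by simpa only [Nat.cast_pow] using ht)) a1
    rwa [sub_add_cancel] at this
  have : Γ.FiniteIndex := ⟨hp.ne_zero⟩
  exact absurd (AddSubgroup.index_strictAnti (h7.lt_of_ne g1.symm)) (by omega)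

end Pool.Agent.MP_c4ca5b_lc.B
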